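import Mathlib
import Pool.Agent.Helper150.Iid.Defs
import Pool.Agent.Helper150.Iid.Bmp

set_option autoImplicit false

/-!
# Monte Carlo error of i.i.d. points on `H^{k,mix}(𝕋²)` (problem MP_2e2259_an, Q1)

Definitions and the statements of the pieces of the proof.
-/

namespace Pool.Agent.W691.Ran

open MeasureTheory Pool.Agent.Helper150.Iid
open scoped ENNReal ContDiff

noncomputable section

/-- The Monte Carlo error `e^ran(A) = sup_{‖f‖ ≤ 1} E |S(f) - A(f)|` (upper integral). -/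
def errRan {d n : ℕ} (A : RandAlg d n) (k : ℝ) : ℝ≥0∞ :=
  letI := A.mΩ
  ⨆ f ∈ ball d k, upperInt A.μ
    (fun o => ENNReal.ofReal |(∫ x, f x) - A.φ o (fun i => f (A.P o i))|)

/-- `e^ran(𝒫_n)`: optimal Monte Carlo error of algorithms based on `n` i.i.d. uniform points. -/
def ranIid (d : ℕ) (k : ℝ) (n : ℕ) : ℝ≥0∞ :=
  ⨅ (A : RandAlg d n) (_ : A.IsIid), errRan A k

/-- `e^ran(n)`: optimal Monte Carlo error of algorithms based on arbitrary random point sets with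
at most `n` points. -/
def ranOpt (d : ℕ) (k : ℝ) (n : ℕ) : ℝ≥0∞ :=
  ⨅ (A : RandAlg d n), errRan A k

/-- `f` is continuous and its squared norm in `H^{k,mix}(𝕋²)` is at most `E`. -/
def NB (k : ℝ) (f : Tor 2 → ℝ) (E : ℝ) : Prop :=
  Continuous f ∧ (Summable fun h => ‖fc f h‖ ^ 2 * wt k h) ∧
    ∑' h, ‖fc f h‖ ^ 2 * wt k h ≤ E

/-! ### Upper bound: scrambled nets with a random shift -/

/-- UA: an unbiased randomly shifted rule whose exponential sums are small on average. -/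
def S_UA : Prop := ∀ (k : ℝ), 1 / 2 < k → ∀ (n : ℕ), 0 < n →
  ∀ (Ω' : Type) [Fintype Ω'] [Nonempty Ω'] (z : Ω' → Fin n → Tor 2) (V : ℝ), 0 ≤ V →
  (∀ h : Fin 2 → ℤ, h ≠ 0 → ∑ o, ‖∑ i, ∏ j, (fourier (h j) (z o i j) : ℂ)‖ ^ 2 ≤
    (Fintype.card Ω' : ℝ) * (n : ℝ) ^ 2 * V * wt k h) →
  ranOpt 2 k n ≤ ENNReal.ofReal (Real.sqrt V)

/-- Keep the first `p` bits, the others become `false`. -/
def tr {M : ℕ} (p : Fin M) (v : Fin M → Bool) : Fin M → Bool := fun q => if q < p then v q else false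

/-- The coins of a nested scramble of depth `M`: one coin for each node (level, prefix). -/
abbrev Coin (M : ℕ) : Type := Fin M × (Fin M → Bool) → Bool

/-- The scrambled point with binary digits `v p xor s (p, prefix of v)`. -/
def X {M : ℕ} (s : Coin M) (v : Fin M → Bool) : ℝ :=
  ∑ p : Fin M, (if xor (v p) (s (p, tr p v)) then (1 : ℝ) else 0) / 2 ^ ((p : ℕ) + 1)

/-- `S(a) = ∏_{a ≤ p < M} cos²(π h / 2^{p+1})`. -/
def Sc (M : ℕ) (h : ℤ) (a : ℕ) : ℝ :=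
  ∏ p ∈ Finset.Ico a M, Real.cos (Real.pi * h / 2 ^ (p + 1)) ^ 2

/-- PAIR: average of the exponential of a difference of two scrambled points, if the first
difference of the bits is at position `a`. -/
def S_PAIR : Prop := ∀ (M : ℕ) (h : ℤ) (v v' : Fin M → Bool) (a : Fin M),
  (∀ q < a, v q = v' q) → v a ≠ v' a →
  ∑ s : Coin M, Complex.exp (2 * Real.pi * Complex.I * h * (X s v - X s v' : ℝ)) =
    ((Fintype.card (Coin M) : ℝ) * (2 * Sc M h a - Sc M h (a + 1)) : ℝ)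

/-- The elementary two point functions on bit strings. -/
def Wf {m : ℕ} (a : ℕ) (i j : Fin m → Bool) : ℝ :=
  if ∀ p : Fin m, (p : ℕ) + 1 < a → i p = j p then
    (if ∀ p : Fin m, (p : ℕ) + 1 = a → i p = j p then 1 else -1) else 0

/-- COUNT: orthogonality relations of a `(0,m,2)`-net. -/
def S_COUNT : Prop := ∀ (m a b : ℕ), a ≤ m + 1 → b ≤ m + 1 →
  (a + b ≤ m → 1 ≤ a + b →
    ∑ i : Fin m → Bool, ∑ j : Fin m → Bool, Wf a i j * Wf b (i ∘ Fin.rev) (j ∘ Fin.rev) = 0) ∧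
  (m < a + b →
    |∑ i : Fin m → Bool, ∑ j : Fin m → Bool, Wf a i j * Wf b (i ∘ Fin.rev) (j ∘ Fin.rev)| ≤
      2 * 2 ^ m)

/-- GEO: a geometric double sum. -/
def S_GEO : Prop := ∀ k : ℝ, 0 < k → k < 1 → ∃ C : ℝ, 0 < C ∧ ∀ (m : ℕ) (A B : ℝ), 1 ≤ A → 1 ≤ B →
  ∑ a ∈ Finset.range (m + 2), ∑ b ∈ Finset.range (m + 2),
    (if m < a + b then min 1 (A / 4 ^ a) * min 1 (B / 4 ^ b) else 0) ≤ C * (A * B / 4 ^ m) ^ k

/-- UB: the exponential sums of a scrambled net. -/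
def S_UB : Prop := ∀ k : ℝ, 1 / 2 < k → k < 1 → ∃ C : ℝ, 0 < C ∧ ∀ m : ℕ,
  ∃ (Ω' : Type) (_ : Fintype Ω') (_ : Nonempty Ω') (z : Ω' → Fin (2 ^ m) → Tor 2),
  ∀ h : Fin 2 → ℤ, h ≠ 0 → ∑ o, ‖∑ i, ∏ j, (fourier (h j) (z o i j) : ℂ)‖ ^ 2 ≤
    (Fintype.card Ω' : ℝ) * ((2 ^ m : ℕ) : ℝ) ^ 2 * (C * ((2 : ℝ) ^ m) ^ (-(1 + 2 * k))) * wt k h

/-! ### Lower bound -/

/-- The box of integer vectors. -/
def box (I : Type) [Fintype I] [DecidableEq I] (L : ℕ) : Finset (I → ℤ) :=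
  Fintype.piFinset fun _ => Finset.Icc (-(L : ℤ)) L

/-- TENT: a finitely supported prior on `ℤ^I` which is robust under shifts. -/
def S_TENT : Prop := ∀ (I : Type) [Fintype I] [DecidableEq I] (L : ℕ), 0 < L →
  ∃ p : (I → ℤ) → ℝ, (∀ x, 0 ≤ p x) ∧ ∑ x ∈ box I L, p x = 1 ∧
  ∀ τ : I → ℤ, ∑ q, ((τ q : ℝ) / L) ^ 2 ≤ 1 / 12 → ∀ (F : (I → ℤ) → ℝ≥0∞) (B : ℝ≥0∞),
    (∀ x, B ≤ F x + F (x + τ)) → B ≤ 16 * ∑ x ∈ box I L, ENNReal.ofReal (p x) * F x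

/-- AVG: the lower bound for the Monte Carlo error of i.i.d. points from a finite family. -/
def S_AVG : Prop := ∀ (n : ℕ) (k : ℝ) (I : Type) [Fintype I] [DecidableEq I]
  (F : I → Tor 2 → ℝ) (L : ℕ), 0 < L → (∀ q, Continuous (F q)) →
  (∀ ξ : I → ℝ, (∀ q, |ξ q| ≤ 1) → (fun x => ∑ q, ξ q * F q x) ∈ ball 2 k) →
  ∀ (B : ℝ), 0 ≤ B → ∀ Bad : Set (Fin n → Tor 2),
  (Measure.pi (fun _ : Fin n => (volume : Measure (Tor 2)))) Bad ≤ 3 / 4 →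
  (∀ w, w ∉ Bad → ∃ τ : I → ℤ, ∑ q, ((τ q : ℝ) / L) ^ 2 ≤ 1 / 12 ∧
    (∀ j, ∑ q, (τ q : ℝ) / L * F q (w j) = 0) ∧ B ≤ ∫ x, ∑ q, (τ q : ℝ) / L * F q x) →
  ENNReal.ofReal (B / 64) ≤ ranIid 2 k n

/-- QUANT: a tensor product of two smooth periodic functions is approximated in
`H^{k,mix}`, `k < 1`, by continuous functions with dyadic values outside a small set. -/
def S_QUANT : Prop := ∀ k : ℝ, 0 < k → k < 1 → ∀ u v : ℝ → ℝ,
  Function.Periodic u 1 → Function.Periodic v 1 → ContDiff ℝ ∞ u → ContDiff ℝ ∞ v →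
  ∀ ε : ℝ, 0 < ε → ∃ (e : Tor 2 → ℝ) (G : ℕ) (Z : Set (Tor 2)), Continuous e ∧
    (volume : Measure (Tor 2)) Z ≤ ENNReal.ofReal ε ∧
    (∀ x, x ∉ Z → ∃ z : ℤ, (2 : ℝ) ^ G * e x = z) ∧
    (∀ x, |e x - cf u (x 0) * cf v (x 1)| ≤ ε) ∧
    NB k (fun x => e x - cf u (x 0) * cf v (x 1)) ε

/-- The bump of level `(l, Λ - l)` around a point of a fixed grid. -/
def gb (Λ l a b : ℕ) (x : Tor 2) : ℝ :=
  cf (pb bb ((2 : ℝ) ^ l) ((a : ℝ) / 2 ^ (l + 3))) (x 0) *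
    cf (pb bb ((2 : ℝ) ^ (Λ - l)) ((b : ℝ) / 2 ^ (Λ - l + 3))) (x 1)

/-- GRID: the norm of a combination of all bumps of a fixed grid. -/
def S_GRID : Prop := ∀ k : ℝ, 0 ≤ k → ∃ C : ℝ, 0 ≤ C ∧ ∀ (Λ : ℕ) (r : ℕ → ℕ → ℕ → ℝ),
  NB k (fun x => ∑ l ∈ Finset.range (Λ + 1), ∑ a ∈ Finset.range (2 ^ (l + 3)),
      ∑ b ∈ Finset.range (2 ^ (Λ - l + 3)), r l a b * gb Λ l a b x)
    (C * ((Λ : ℝ) + 1) * ((2 : ℝ) ^ Λ) ^ (2 * k) / (2 : ℝ) ^ Λ *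
      ∑ l ∈ Finset.range (Λ + 1), ∑ a ∈ Finset.range (2 ^ (l + 3)),
        ∑ b ∈ Finset.range (2 ^ (Λ - l + 3)), r l a b ^ 2)

end

end Pool.Agent.W691.Ran
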