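import Mathlib
import Pool.Agent.W691.Ran.Defs
import Pool.Agent.Helper150.Iid.Asm2

set_option autoImplicit false

namespace Pool.Agent.W691.Ran

open MeasureTheory Pool.Agent.Helper150.Iid
open scoped ENNReal

noncomputable section

theorem wt_nonneg (k : ℝ) (h : Fin 2 → ℤ) : 0 ≤ wt k h :=
  Finset.prod_nonneg fun j _ => Real.rpow_nonneg (by positivity) _

theorem NB_mono {k : ℝ} {f : Tor 2 → ℝ} {E E' : ℝ} (h : NB k f E) (hE : E ≤ E') : NB k f E' :=
  ⟨h.1, h.2.1, h.2.2.trans hE⟩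

theorem NB_nonneg {k : ℝ} {f : Tor 2 → ℝ} {E : ℝ} (h : NB k f E) : 0 ≤ E :=
  le_trans (tsum_nonneg fun a => mul_nonneg (by positivity) (wt_nonneg k a)) h.2.2

theorem NB_smul {k : ℝ} {f : Tor 2 → ℝ} {E : ℝ} (h : NB k f E) (c : ℝ) :
    NB k (fun x => c * f x) (c ^ 2 * E) := by
  have e1 : ∀ a, ‖fc (fun x => c * f x) a‖ ^ 2 * wt k a = c ^ 2 * (‖fc f a‖ ^ 2 * wt k a) := by
    intro a
    rw [fc_smul, norm_mul, Complex.norm_real, Real.norm_eq_abs, mul_pow, sq_abs]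
    ring
  refine ⟨continuous_const.mul h.1, ?_, ?_⟩
  · simp only [e1]
    exact h.2.1.mul_left _
  · simp only [e1]
    rw [tsum_mul_left]
    exact mul_le_mul_of_nonneg_left h.2.2 (sq_nonneg _)

theorem fc_add (f g : Tor 2 → ℝ) (hf : Continuous f) (hg : Continuous g) (h : Fin 2 → ℤ) :
    fc (fun x => f x + g x) h = fc f h + fc g h := by
  have h1 := fc_sub f (fun x => (-1) * g x) hf (continuous_const.mul hg) h
  have h2 : (fun x => f x - (-1) * g x) = fun x => f x + g x := by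
    funext x; ring
  rw [h2, fc_smul] at h1
  rw [h1]
  push_cast
  ring

theorem NB_add {k : ℝ} {f g : Tor 2 → ℝ} {E E' : ℝ} (hf : NB k f E) (hg : NB k g E') :
    NB k (fun x => f x + g x) (2 * E + 2 * E') := by
  have hle : ∀ a, ‖fc (fun x => f x + g x) a‖ ^ 2 * wt k a ≤
      2 * (‖fc f a‖ ^ 2 * wt k a) + 2 * (‖fc g a‖ ^ 2 * wt k a) := by
    intro a
    rw [fc_add f g hf.1 hg.1]
    have h1 : ‖fc f a + fc g a‖ ^ 2 ≤ 2 * ‖fc f a‖ ^ 2 + 2 * ‖fc g a‖ ^ 2 := by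
      have h2 := norm_add_le (fc f a) (fc g a)
      have h3 := norm_nonneg (fc f a + fc g a)
      nlinarith [sq_nonneg (‖fc f a‖ - ‖fc g a‖)]
    nlinarith [mul_le_mul_of_nonneg_right h1 (wt_nonneg k a)]
  have hs := (hf.2.1.mul_left 2).add (hg.2.1.mul_left 2)
  have hsum : Summable fun a => ‖fc (fun x => f x + g x) a‖ ^ 2 * wt k a :=
    Summable.of_nonneg_of_le (fun a => mul_nonneg (by positivity) (wt_nonneg k a)) hle hs
  refine ⟨hf.1.add hg.1, hsum, (hsum.tsum_le_tsum hle hs).trans ?_⟩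
  rw [(hf.2.1.mul_left 2).tsum_add (hg.2.1.mul_left 2), tsum_mul_left, tsum_mul_left]
  have := hf.2.2
  have := hg.2.2
  linarith

theorem NB_const (k c : ℝ) : NB k (fun _ => c) (c ^ 2) := by
  have h1 : NB k (fun _ : Tor 2 => (1 : ℝ)) 1 :=
    ⟨continuous_const, (fc_one_sum k).summable, (fc_one_sum k).tsum_eq.le⟩
  have h2 := NB_smul h1 c
  simpa using h2

theorem NB_sum {k : ℝ} {ι : Type*} (s : Finset ι) (f : ι → Tor 2 → ℝ) (E : ℝ)
    (h : ∀ i ∈ s, NB k (f i) E) : NB k (fun x => ∑ i ∈ s, f i x) ((s.card : ℝ) ^ 2 * E) := by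
  classical
  have hfc : ∀ a, ∀ t : Finset ι, t ⊆ s → fc (fun x => ∑ i ∈ t, f i x) a = ∑ i ∈ t, fc (f i) a := by
    intro a t
    induction t using Finset.induction_on with
    | empty =>
      intro _
      simp [fc]
    | insert i t hi ih =>
      intro hts
      have h1 := ih (fun x hx => hts (Finset.mem_insert_of_mem hx))
      have hc : Continuous (fun x => ∑ i ∈ t, f i x) :=
        continuous_finsetSum _ fun j hj => (h j (hts (Finset.mem_insert_of_mem hj))).1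
      simp only [Finset.sum_insert hi]
      rw [fc_add _ _ (h i (hts (Finset.mem_insert_self _ _))).1 hc, h1]
  have hle : ∀ a, ‖fc (fun x => ∑ i ∈ s, f i x) a‖ ^ 2 * wt k a ≤
      (s.card : ℝ) * ∑ i ∈ s, ‖fc (f i) a‖ ^ 2 * wt k a := by
    intro a
    rw [hfc a s (Finset.Subset.refl _), ← Finset.sum_mul, ← mul_assoc]
    refine mul_le_mul_of_nonneg_right ?_ (wt_nonneg k a)
    refine (pow_le_pow_left₀ (norm_nonneg _) (norm_sum_le _ _) 2).trans ?_
    exact sq_sum_le_card_mul_sum_sq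
  have hs : Summable fun a => (s.card : ℝ) * ∑ i ∈ s, ‖fc (f i) a‖ ^ 2 * wt k a :=
    (summable_sum fun i hi => (h i hi).2.1).mul_left _
  have hsum : Summable fun a => ‖fc (fun x => ∑ i ∈ s, f i x) a‖ ^ 2 * wt k a :=
    Summable.of_nonneg_of_le (fun a => mul_nonneg (by positivity) (wt_nonneg k a)) hle hs
  refine ⟨continuous_finsetSum _ fun j hj => (h j hj).1, hsum,
    (hsum.tsum_le_tsum hle hs).trans ?_⟩
  rw [tsum_mul_left, Summable.tsum_finsetSum (fun i hi => (h i hi).2.1)]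
  have h1 : ∑ i ∈ s, ∑' a, ‖fc (f i) a‖ ^ 2 * wt k a ≤ ∑ i ∈ s, E :=
    Finset.sum_le_sum fun i hi => (h i hi).2.2
  rw [Finset.sum_const, nsmul_eq_mul] at h1
  calc (s.card : ℝ) * ∑ i ∈ s, ∑' a, ‖fc (f i) a‖ ^ 2 * wt k a ≤ s.card * (s.card * E) :=
        mul_le_mul_of_nonneg_left h1 (by positivity)
    _ = _ := by ring

theorem ball_of_NB {k : ℝ} {f : Tor 2 → ℝ} {E : ℝ} (h : NB k f E) (hE : E ≤ 1) : f ∈ ball 2 k :=
  ⟨h.1, h.2.1, h.2.2.trans hE⟩

end

end Pool.Agent.W691.Ran
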