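import Mathlib
import Pool.Agent.W691.Ran.NB

set_option autoImplicit false

namespace Pool.Agent.W691.Ran

open MeasureTheory Pool.Agent.Helper150.Iid
open scoped ENNReal

noncomputable section

/-- The index set of the first part of the family. -/
def S1 (Q R : ℕ) : Finset (Σ _ : ℕ, ℕ × ℕ) :=
  (Finset.range R).sigma fun l => Finset.range (Q ^ l) ×ˢ Finset.range (2 * Q ^ (R + 1 - l))

/-- first factor -/
def u1 (Q : ℕ) (x : Σ _ : ℕ, ℕ × ℕ) : ℝ → ℝ :=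
  psi ((Q : ℝ) ^ x.1) (((x.2.1 : ℝ) + 1 / 2) / (Q : ℝ) ^ x.1)

/-- second factor -/
def v1 (Q R : ℕ) (x : Σ _ : ℕ, ℕ × ℕ) : ℝ → ℝ :=
  pb bb ((Q : ℝ) ^ (R + 1 - x.1)) ((x.2.2 : ℝ) / (2 * (Q : ℝ) ^ (R + 1 - x.1)))

/-- The first part of the family. -/
def e1 (Q R : ℕ) (x : Σ _ : ℕ, ℕ × ℕ) (p : Tor 2) : ℝ :=
  cf (u1 Q x) (p 0) * cf (v1 Q R x) (p 1)

/-- coefficients in the format of `f1` -/
def cOf (Q R : ℕ) (γ : (Σ _ : ℕ, ℕ × ℕ) → ℝ) (l a : ℕ) (m : Fin (2 * Q ^ (R + 1))) : ℝ :=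
  if (m : ℕ) < 2 * Q ^ (R + 1 - l) then γ ⟨l, a, m⟩ else 0

theorem sum_fin_trunc {N n : ℕ} (hn : n ≤ N) (g : ℕ → ℝ) :
    ∑ m : Fin N, (if (m : ℕ) < n then g m else 0) = ∑ m ∈ Finset.range n, g m := by
  rw [Fin.sum_univ_eq_sum_range (fun m => if m < n then g m else 0) N, ← Finset.sum_filter]
  refine Finset.sum_congr ?_ fun _ _ => rfl
  ext m
  simp only [Finset.mem_filter, Finset.mem_range]
  omega

theorem pow_sub_le {Q : ℕ} (hQ : 0 < Q) (R l : ℕ) : 2 * Q ^ (R + 1 - l) ≤ 2 * Q ^ (R + 1) :=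
  Nat.mul_le_mul_left _ (Nat.pow_le_pow_right hQ (Nat.sub_le _ _))

theorem sum_S1 {Q : ℕ} (hQ : 0 < Q) (R : ℕ) (G : (Σ _ : ℕ, ℕ × ℕ) → ℝ) :
    ∑ x ∈ S1 Q R, G x = ∑ l ∈ Finset.range R, ∑ a ∈ Finset.range (Q ^ l),
      ∑ m : Fin (2 * Q ^ (R + 1)), (if (m : ℕ) < 2 * Q ^ (R + 1 - l) then G ⟨l, a, m⟩ else 0) := by
  unfold S1
  rw [Finset.sum_sigma]
  refine Finset.sum_congr rfl fun l _ => ?_
  rw [Finset.sum_product]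
  refine Finset.sum_congr rfl fun a _ => ?_
  exact (sum_fin_trunc (pow_sub_le hQ R l) (fun m => G ⟨l, a, m⟩)).symm

theorem f1_eq_sum {Q : ℕ} (hQ : 0 < Q) (R : ℕ) (c : ℕ → ℕ → Fin (2 * Q ^ (R + 1)) → ℝ) (p : Tor 2)
    (γ : (Σ _ : ℕ, ℕ × ℕ) → ℝ)
    (hγ : ∀ l a (m : Fin (2 * Q ^ (R + 1))), (m : ℕ) < 2 * Q ^ (R + 1 - l) → γ ⟨l, a, m⟩ = c l a m) :
    f1 Q R c p = ∑ x ∈ S1 Q R, γ x * e1 Q R x p := by
  rw [sum_S1 hQ]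
  unfold f1
  refine Finset.sum_congr rfl fun l _ => Finset.sum_congr rfl fun a _ =>
    Finset.sum_congr rfl fun m _ => ?_
  unfold bw
  split_ifs with h
  · rw [hγ l a m h]
    unfold e1 u1 v1
    simp only
    ring
  · ring

theorem NB_f1 (k : ℝ) (hk : 0 ≤ k) : ∃ C : ℝ, 0 ≤ C ∧ ∀ (Q R : ℕ) (γ : (Σ _ : ℕ, ℕ × ℕ) → ℝ),
    2 ≤ Q → NB k (fun p => ∑ x ∈ S1 Q R, γ x * e1 Q R x p)
      (C * ((Q : ℝ) ^ (R + 1)) ^ (2 * k) / (Q : ℝ) ^ (R + 1) * ∑ x ∈ S1 Q R, γ x ^ 2) := by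
  obtain ⟨C, hC, H⟩ := NF1.f1_norm nice_AA nice_bb (blkNorm_of_nice nice_AA nice_bb)
    deriv_pb_AA k hk
  refine ⟨C, hC, fun Q R γ hQ => ?_⟩
  have hQ0 : 0 < Q := by omega
  have h1 : (fun p => ∑ x ∈ S1 Q R, γ x * e1 Q R x p) = f1 Q R (cOf Q R γ) := by
    funext p
    rw [f1_eq_sum hQ0 R (cOf Q R γ) p γ]
    intro l a m hm
    unfold cOf
    rw [if_pos hm]
  rw [h1]
  obtain ⟨hs, ht⟩ := H Q R (cOf Q R γ) hQ
  refine ⟨NF1.f1_continuous nice_AA nice_bb deriv_pb_AA Q R hQ0 _, hs, ht.trans (le_of_eq ?_)⟩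
  congr 1
  rw [sum_S1 hQ0]
  refine Finset.sum_congr rfl fun l _ => Finset.sum_congr rfl fun a _ =>
    Finset.sum_congr rfl fun m _ => ?_
  unfold cOf
  split_ifs
  · rfl
  · norm_num

theorem card_S1 {Q : ℕ} (R : ℕ) : ((S1 Q R).card : ℝ) = 2 * R * (Q : ℝ) ^ (R + 1) := by
  unfold S1
  rw [Finset.card_sigma]
  simp only [Finset.card_product, Finset.card_range]
  have : ∀ l ∈ Finset.range R, Q ^ l * (2 * Q ^ (R + 1 - l)) = 2 * Q ^ (R + 1) := by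
    intro l hl
    have hl' := Finset.mem_range.1 hl
    have h2 : l + (R + 1 - l) = R + 1 := by omega
    calc Q ^ l * (2 * Q ^ (R + 1 - l)) = 2 * (Q ^ l * Q ^ (R + 1 - l)) := by ring
      _ = _ := by rw [← pow_add, h2]
  rw [Finset.sum_congr rfl this, Finset.sum_const, Finset.card_range, smul_eq_mul]
  push_cast
  ring

/-- The index set of the second part. -/
def S2 (Λ : ℕ) : Finset (Σ _ : ℕ, ℕ × ℕ) :=
  (Finset.range (Λ + 1)).sigma fun l =>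
    Finset.range (2 ^ (l + 3)) ×ˢ Finset.range (2 ^ (Λ - l + 3))

/-- The second part of the family. -/
def e2 (Λ : ℕ) (x : Σ _ : ℕ, ℕ × ℕ) (p : Tor 2) : ℝ := gb Λ x.1 x.2.1 x.2.2 p

theorem sum_S2 (Λ : ℕ) (G : (Σ _ : ℕ, ℕ × ℕ) → ℝ) :
    ∑ x ∈ S2 Λ, G x = ∑ l ∈ Finset.range (Λ + 1), ∑ a ∈ Finset.range (2 ^ (l + 3)),
      ∑ b ∈ Finset.range (2 ^ (Λ - l + 3)), G ⟨l, a, b⟩ := by
  unfold S2
  rw [Finset.sum_sigma]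
  refine Finset.sum_congr rfl fun l _ => ?_
  rw [Finset.sum_product]

theorem NB_f2 (hG : S_GRID) (k : ℝ) (hk : 0 ≤ k) : ∃ C : ℝ, 0 ≤ C ∧
    ∀ (Λ : ℕ) (γ : (Σ _ : ℕ, ℕ × ℕ) → ℝ), NB k (fun p => ∑ x ∈ S2 Λ, γ x * e2 Λ x p)
      (C * ((Λ : ℝ) + 1) * ((2 : ℝ) ^ Λ) ^ (2 * k) / (2 : ℝ) ^ Λ * ∑ x ∈ S2 Λ, γ x ^ 2) := by
  obtain ⟨C, hC, H⟩ := hG k hk
  refine ⟨C, hC, fun Λ γ => ?_⟩
  have h := H Λ (fun l a b => γ ⟨l, a, b⟩)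
  have h1 : (fun p => ∑ x ∈ S2 Λ, γ x * e2 Λ x p) = (fun x => ∑ l ∈ Finset.range (Λ + 1),
      ∑ a ∈ Finset.range (2 ^ (l + 3)),
      ∑ b ∈ Finset.range (2 ^ (Λ - l + 3)), γ ⟨l, a, b⟩ * gb Λ l a b x) := by
    funext p
    rw [sum_S2]
    rfl
  rw [h1, sum_S2]
  exact h

theorem card_S2 (Λ : ℕ) : ((S2 Λ).card : ℝ) = 64 * ((Λ : ℝ) + 1) * (2 : ℝ) ^ Λ := by
  unfold S2
  rw [Finset.card_sigma]
  simp only [Finset.card_product, Finset.card_range]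
  have : ∀ l ∈ Finset.range (Λ + 1), 2 ^ (l + 3) * 2 ^ (Λ - l + 3) = 64 * 2 ^ Λ := by
    intro l hl
    have hl' := Finset.mem_range.1 hl
    have h2 : (l + 3) + (Λ - l + 3) = Λ + 6 := by omega
    rw [← pow_add, h2, pow_add]
    ring
  rw [Finset.sum_congr rfl this, Finset.sum_const, Finset.card_range, smul_eq_mul]
  push_cast
  ring

end

end Pool.Agent.W691.Ran
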