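import Mathlib
import Pool.Agent.W691.Ran.Fam

set_option autoImplicit false

namespace Pool.Agent.W691.Ran

open MeasureTheory Pool.Agent.Helper150.Iid
open scoped ENNReal

noncomputable section

/-- index of the grid point below `t` -/
def gi (l : ℕ) (t : UnitAddCircle) : ℕ := ⌊(2 : ℝ) ^ (l + 3) * rep t⌋₊

theorem gi_lt (l : ℕ) (t : UnitAddCircle) : gi l t < 2 ^ (l + 3) := by
  unfold gi
  rw [Nat.floor_lt (by have := (rep_mem t).1; positivity)]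
  push_cast
  have h := (rep_mem t).2
  have h2 : (0 : ℝ) < 2 ^ (l + 3) := by positivity
  nlinarith

theorem gi_near (l : ℕ) (t : UnitAddCircle) :
    |rep t - (gi l t : ℝ) / 2 ^ (l + 3)| ≤ 1 / (8 * 2 ^ l) := by
  have h0 : (0 : ℝ) < 2 ^ (l + 3) := by positivity
  have h1 : (gi l t : ℝ) ≤ 2 ^ (l + 3) * rep t :=
    Nat.floor_le (by have := (rep_mem t).1; positivity)
  have h2 : 2 ^ (l + 3) * rep t < (gi l t : ℝ) + 1 := Nat.lt_floor_add_one _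
  have e : (8 : ℝ) * 2 ^ l = 2 ^ (l + 3) := by rw [pow_add]; ring
  rw [e]
  have h3 : rep t - (gi l t : ℝ) / 2 ^ (l + 3) = (2 ^ (l + 3) * rep t - gi l t) / 2 ^ (l + 3) := by
    field_simp
  rw [h3, abs_div, abs_of_pos h0, div_le_div_iff_of_pos_right h0, abs_le]
  constructor <;> linarith

theorem bump_own (l : ℕ) (t : UnitAddCircle) :
    cf (pb bb ((2 : ℝ) ^ l) ((gi l t : ℝ) / 2 ^ (l + 3))) t = 1 := by
  change bb ((2 : ℝ) ^ l * Real.sin (Real.pi * (rep t - (gi l t : ℝ) / 2 ^ (l + 3)))) = 1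
  apply bb_one
  have h0 : (0 : ℝ) < 2 ^ l := by positivity
  rw [abs_mul, abs_of_pos h0]
  have h1 := Real.abs_sin_le_abs (x := Real.pi * (rep t - (gi l t : ℝ) / 2 ^ (l + 3)))
  rw [abs_mul, abs_of_pos Real.pi_pos] at h1
  have h2 := gi_near l t
  have h3 := Real.pi_lt_d2
  have h4 := Real.pi_pos
  calc (2 : ℝ) ^ l * |Real.sin (Real.pi * (rep t - (gi l t : ℝ) / 2 ^ (l + 3)))|
      ≤ 2 ^ l * (Real.pi * (1 / (8 * 2 ^ l))) := by
        refine mul_le_mul_of_nonneg_left (h1.trans ?_) h0.le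
        exact mul_le_mul_of_nonneg_left h2 h4.le
    _ = Real.pi / 8 := by field_simp
    _ ≤ 4 / 5 := by linarith

theorem bump_far (l : ℕ) (t t' : UnitAddCircle) (h : 1 / 2 ^ l ≤ ‖t' - t‖) :
    cf (pb bb ((2 : ℝ) ^ l) ((gi l t : ℝ) / 2 ^ (l + 3))) t' = 0 := by
  have hK : (1 : ℝ) ≤ 2 ^ l := one_le_pow₀ (by norm_num)
  have h1 := cf_zero' nice_bb 0 ((2 : ℝ) ^ l) ((gi l t : ℝ) / 2 ^ (l + 3)) hK t' ?_
  · rw [iteratedDeriv_zero] at h1
    exact h1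
  · rw [not_lt]
    have h2 : ‖t - (((gi l t : ℝ) / 2 ^ (l + 3) : ℝ) : UnitAddCircle)‖ ≤ 1 / (8 * 2 ^ l) := by
      have e : t - (((gi l t : ℝ) / 2 ^ (l + 3) : ℝ) : UnitAddCircle) =
          ((rep t - (gi l t : ℝ) / 2 ^ (l + 3) : ℝ) : UnitAddCircle) := by
        rw [AddCircle.coe_sub, coe_rep]
      rw [e]
      refine le_trans ?_ (gi_near l t)
      rw [UnitAddCircle.norm_eq]
      have := round_le (rep t - (gi l t : ℝ) / 2 ^ (l + 3)) 0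
      simpa using this
    have h3 : ‖t' - t‖ ≤ ‖t' - (((gi l t : ℝ) / 2 ^ (l + 3) : ℝ) : UnitAddCircle)‖ +
        ‖t - (((gi l t : ℝ) / 2 ^ (l + 3) : ℝ) : UnitAddCircle)‖ := by
      have e : t' - t = (t' - (((gi l t : ℝ) / 2 ^ (l + 3) : ℝ) : UnitAddCircle)) -
        (t - (((gi l t : ℝ) / 2 ^ (l + 3) : ℝ) : UnitAddCircle)) := by abel
      rw [e]
      exact norm_sub_le _ _
    have h4 : (1 : ℝ) / (2 * 2 ^ l) = 1 / 2 ^ l / 2 := by field_simp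
    have h5 : (1 : ℝ) / (8 * 2 ^ l) = 1 / 2 ^ l / 8 := by field_simp
    have h6 : (0 : ℝ) < 1 / 2 ^ l := by positivity
    rw [h4]
    rw [h5] at h2
    linarith

/-- the index of the bump of shape `l` at the node `w` -/
def nd (Λ l : ℕ) (w : Tor 2) : Σ _ : ℕ, ℕ × ℕ := ⟨l, gi l (w 0), gi (Λ - l) (w 1)⟩

theorem nd_mem {Λ l : ℕ} (hl : l ≤ Λ) (w : Tor 2) : nd Λ l w ∈ S2 Λ := by
  unfold nd S2
  rw [Finset.mem_sigma, Finset.mem_product, Finset.mem_range, Finset.mem_range, Finset.mem_range]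
  exact ⟨Nat.lt_succ_of_le hl, gi_lt l _, gi_lt (Λ - l) _⟩

theorem e2_own (Λ l : ℕ) (w : Tor 2) : e2 Λ (nd Λ l w) w = 1 := by
  unfold e2 nd gb
  simp only
  rw [bump_own, bump_own, one_mul]

theorem e2_other (Λ l : ℕ) (w w' : Tor 2)
    (h : ¬ (‖w' 0 - w 0‖ < 1 / 2 ^ l ∧ ‖w' 1 - w 1‖ < 1 / 2 ^ (Λ - l))) :
    e2 Λ (nd Λ l w) w' = 0 := by
  unfold e2 nd gb
  simp only
  rw [not_and_or, not_lt, not_lt] at h
  rcases h with h | h
  · rw [bump_far l (w 0) (w' 0) h, zero_mul]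
  · rw [bump_far (Λ - l) (w 1) (w' 1) h, mul_zero]

theorem cf_bb_nonneg (K x0 : ℝ) (t : UnitAddCircle) : 0 ≤ cf (pb bb K x0) t := bb_nonneg _

theorem cf_bb_le (K x0 : ℝ) (t : UnitAddCircle) : cf (pb bb K x0) t ≤ 1 := bb_le_one _

theorem e2_cont (Λ : ℕ) (x : Σ _ : ℕ, ℕ × ℕ) : Continuous (e2 Λ x) := by
  have h := fun (K x0 : ℝ) => cf_continuous (nice_bb.per K x0) (nice_bb.smooth K x0).continuous
  exact ((h _ _).comp (continuous_apply 0)).mul ((h _ _).comp (continuous_apply 1))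

theorem e2_int {Λ : ℕ} {x : Σ _ : ℕ, ℕ × ℕ} (hx : x ∈ S2 Λ) :
    |∫ p, e2 Λ x p| ≤ 1 / 2 ^ Λ := by
  have hx' : x.1 ≤ Λ := by
    unfold S2 at hx
    rw [Finset.mem_sigma, Finset.mem_range] at hx
    omega
  have h0 : ∀ p, 0 ≤ e2 Λ x p := fun p => mul_nonneg (cf_bb_nonneg _ _ _) (cf_bb_nonneg _ _ _)
  rw [abs_of_nonneg (integral_nonneg h0)]
  have hK : (1 : ℝ) ≤ 2 ^ x.1 := one_le_pow₀ (by norm_num)
  have hK' : (1 : ℝ) ≤ 2 ^ (Λ - x.1) := one_le_pow₀ (by norm_num)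
  obtain ⟨T, hT⟩ : ∃ T : Set (Tor 2), T = {p : Tor 2 |
    ‖p 0 - (((x.2.1 : ℝ) / 2 ^ (x.1 + 3) : ℝ) : UnitAddCircle)‖ < 1 / (2 * (2 : ℝ) ^ x.1) ∧
    ‖p 1 - (((x.2.2 : ℝ) / 2 ^ (Λ - x.1 + 3) : ℝ) : UnitAddCircle)‖ < 1 / (2 * (2 : ℝ) ^ (Λ - x.1))} :=
    ⟨_, rfl⟩
  have hv := vol_S ((2 : ℝ) ^ x.1) ((2 : ℝ) ^ (Λ - x.1)) hK hK'
    (((x.2.1 : ℝ) / 2 ^ (x.1 + 3) : ℝ) : UnitAddCircle)
    (((x.2.2 : ℝ) / 2 ^ (Λ - x.1 + 3) : ℝ) : UnitAddCircle)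
  rw [← hT] at hv
  have hTm : MeasurableSet T := by
    rw [hT]
    have c0 : Continuous fun p : Tor 2 =>
        ‖p 0 - (((x.2.1 : ℝ) / 2 ^ (x.1 + 3) : ℝ) : UnitAddCircle)‖ :=
      ((continuous_apply 0).sub continuous_const).norm
    have c1 : Continuous fun p : Tor 2 =>
        ‖p 1 - (((x.2.2 : ℝ) / 2 ^ (Λ - x.1 + 3) : ℝ) : UnitAddCircle)‖ :=
      ((continuous_apply 1).sub continuous_const).norm
    exact ((isOpen_lt c0 continuous_const).inter (isOpen_lt c1 continuous_const)).measurableSet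
  have hle : ∀ p, e2 Λ x p ≤ T.indicator (fun _ => (1 : ℝ)) p := by
    intro p
    by_cases hp : p ∈ T
    · rw [Set.indicator_of_mem hp]
      exact mul_le_one₀ (cf_bb_le _ _ _) (cf_bb_nonneg _ _ _) (cf_bb_le _ _ _)
    · rw [Set.indicator_of_notMem hp]
      rw [hT, Set.mem_ofPred_eq, not_and_or] at hp
      refine le_of_eq ?_
      unfold e2 gb
      rcases hp with hp | hp
      · have h1 := cf_zero' nice_bb 0 ((2 : ℝ) ^ x.1) _ hK (p 0) hp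
        rw [iteratedDeriv_zero] at h1
        rw [h1, zero_mul]
      · have h1 := cf_zero' nice_bb 0 ((2 : ℝ) ^ (Λ - x.1)) _ hK' (p 1) hp
        rw [iteratedDeriv_zero] at h1
        rw [h1, mul_zero]
  calc ∫ p, e2 Λ x p ≤ ∫ p, T.indicator (fun _ => (1 : ℝ)) p := by
        refine integral_mono (integrable_contR (e2_cont Λ x)) ?_ hle
        exact (integrable_const 1).indicator hTm
    _ = volume.real T := by
        rw [integral_indicator hTm, setIntegral_const]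
        simp
    _ ≤ 1 / ((2 : ℝ) ^ x.1 * (2 : ℝ) ^ (Λ - x.1)) := hv
    _ = 1 / 2 ^ Λ := by
        rw [← pow_add, Nat.add_sub_cancel' hx']

end

end Pool.Agent.W691.Ran
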