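import Mathlib
import Pool.Agent.W691.Ran.Node

set_option autoImplicit false

namespace Pool.Agent.W691.Ran

open MeasureTheory Pool.Agent.Helper150.Iid
open scoped ENNReal

noncomputable section

theorem e1_cont {Q : ℕ} (hQ : 0 < Q) {R : ℕ} {x : Σ _ : ℕ, ℕ × ℕ} (hx : x ∈ S1 Q R) :
    Continuous (e1 Q R x) := by
  classical
  have h := f1_eq_sum hQ R (cOf Q R (fun y => if y = x then 1 else 0))
  have h1 : e1 Q R x = f1 Q R (cOf Q R (fun y => if y = x then 1 else 0)) := by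
    funext p
    rw [h p (fun y => if y = x then 1 else 0)]
    · simp [hx]
    · intro l a m hm
      unfold cOf
      rw [if_pos hm]
  rw [h1]
  exact NF1.f1_continuous nice_AA nice_bb deriv_pb_AA Q R hQ _

theorem e1_int {Q : ℕ} (hQ : 0 < Q) {R : ℕ} {x : Σ _ : ℕ, ℕ × ℕ} (hx : x ∈ S1 Q R) :
    ∫ p, e1 Q R x p = 0 := by
  classical
  have h := f1_eq_sum hQ R (cOf Q R (fun y => if y = x then 1 else 0))
  have h1 : e1 Q R x = f1 Q R (cOf Q R (fun y => if y = x then 1 else 0)) := by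
    funext p
    rw [h p (fun y => if y = x then 1 else 0)]
    · simp [hx]
    · intro l a m hm
      unfold cOf
      rw [if_pos hm]
  rw [h1]
  exact NF1.f1_integral nice_AA nice_bb deriv_pb_AA Q R hQ _

theorem e1_le (Q R : ℕ) (x : Σ _ : ℕ, ℕ × ℕ) (p : Tor 2) : |e1 Q R x p| ≤ 1 := by
  unfold e1
  rw [abs_mul]
  have h1 : |cf (u1 Q x) (p 0)| ≤ 1 := psi_le _ _ _
  have h2 : |cf (v1 Q R x) (p 1)| ≤ 1 := by
    have h3 : 0 ≤ cf (v1 Q R x) (p 1) := cf_bb_nonneg _ _ _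
    have h4 : cf (v1 Q R x) (p 1) ≤ 1 := cf_bb_le _ _ _
    rw [abs_of_nonneg h3]
    exact h4
  exact mul_le_one₀ h1 (abs_nonneg _) h2

/-- The index type of the family. -/
abbrev Ix (Q R Λ : ℕ) : Type := Unit ⊕ (↥(S1 Q R) ⊕ ↥(S2 Λ))

/-- The family. -/
def Fam (Q R Λ : ℕ) (a1 a2 : ℝ) (et : (Σ _ : ℕ, ℕ × ℕ) → Tor 2 → ℝ) : Ix Q R Λ → Tor 2 → ℝ
  | .inl _ => fun _ => 1 / 8
  | .inr (.inl x) => fun p => a1 * et x p
  | .inr (.inr x) => fun p => a2 * e2 Λ x p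

theorem sum_Ix {Q R Λ : ℕ} (G : Ix Q R Λ → ℝ) :
    ∑ q, G q = G (.inl ()) + (∑ x : ↥(S1 Q R), G (.inr (.inl x)) +
      ∑ x : ↥(S2 Λ), G (.inr (.inr x))) := by
  rw [Fintype.sum_sum_type, Fintype.sum_sum_type]
  simp

/-- Existence of the integer shift vector. -/
theorem shift {n Q R Λ A A1 A2 G1 G : ℕ} (hQ : 0 < Q) (w : Fin n → Tor 2) (hiso : Iso n Λ w)
    (et : (Σ _ : ℕ, ℕ × ℕ) → Tor 2 → ℝ) (c : (Σ _ : ℕ, ℕ × ℕ) → ℝ) (Cc S ε cm t a1 a2 : ℝ)
    (ht : t = 1 / 2 ^ A) (ha1 : a1 = 1 / 2 ^ A1) (ha2 : a2 = 1 / 2 ^ A2)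
    (hcont : ∀ x ∈ S1 Q R, Continuous (et x))
    (het : ∀ x ∈ S1 Q R, ∀ p, |et x p - e1 Q R x p| ≤ ε) (hε1 : ε ≤ 1)
    (hz : ∀ x ∈ S1 Q R, ∀ j, ∃ z : ℤ, (2 : ℝ) ^ G * et x (w j) = z)
    (hcm : ∀ x ∈ S1 Q R, |c x| ≤ cm)
    (hc : ∑ x ∈ S1 Q R, c x ^ 2 ≤ Cc)
    (hS : ∑ j, (1 - ∑ x ∈ S1 Q R, c x * e1 Q R x (w j)) ^ 2 ≤ S)
    (H1 : (n : ℝ) * ((S1 Q R).card * (2 * a1 / 2 ^ G1 + t * cm * ε)) ^ 2 ≤ t ^ 2 * S)
    (H2 : (S1 Q R).card * ((t * cm + a1 / 2 ^ G1) * ε) ≤ t / 8)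
    (H3 : 64 * t ^ 2 + 2 * t ^ 2 * Cc / a1 ^ 2 + 4 * t ^ 2 * S / a2 ^ 2 ≤ 1 / 24)
    (H4 : 2 * ((S1 Q R).card : ℝ) / 4 ^ G1 ≤ 1 / 24)
    (H5 : 1 / 2 ^ Λ * Real.sqrt (n * S) ≤ 1 / 8) :
    ∃ τ : Ix Q R Λ → ℤ,
      ∑ q, ((τ q : ℝ) / ((2 ^ (A + A1 + G1 + G) : ℕ) : ℝ)) ^ 2 ≤ 1 / 12 ∧
      (∀ j, ∑ q, (τ q : ℝ) / ((2 ^ (A + A1 + G1 + G) : ℕ) : ℝ) * Fam Q R Λ a1 a2 et q (w j) = 0) ∧
      t / 2 ≤ ∫ p, ∑ q, (τ q : ℝ) / ((2 ^ (A + A1 + G1 + G) : ℕ) : ℝ) * Fam Q R Λ a1 a2 et q p := by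
  classical
  choose lam hlam hsep using hiso
  have ht0 : 0 < t := by rw [ht]; positivity
  have ha10 : 0 < a1 := by rw [ha1]; positivity
  have ha20 : 0 < a2 := by rw [ha2]; positivity
  choose! z hz' using hz
  obtain ⟨m, hm⟩ : ∃ m : (Σ _ : ℕ, ℕ × ℕ) → ℤ, m = fun x => round ((2 : ℝ) ^ G1 * t * c x / a1) :=
    ⟨_, rfl⟩
  obtain ⟨Rj, hRj⟩ : ∃ Rj : Fin n → ℤ, Rj = fun j => 2 ^ (A1 + G1 + G) -
    ∑ x ∈ S1 Q R, m x * 2 ^ A * z x j := ⟨_, rfl⟩
  obtain ⟨nn, hnn⟩ : ∃ nn : Fin n → Σ _ : ℕ, ℕ × ℕ, nn = fun i => nd Λ (lam i) (w i) := ⟨_, rfl⟩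
  obtain ⟨Lr, hLr⟩ : ∃ Lr : ℝ, Lr = ((2 ^ (A + A1 + G1 + G) : ℕ) : ℝ) := ⟨_, rfl⟩
  have hLr' : Lr = 2 ^ A * 2 ^ A1 * 2 ^ G1 * 2 ^ G := by
    rw [hLr]; push_cast; rw [pow_add, pow_add, pow_add]
  have hLr0 : 0 < Lr := by rw [hLr']; positivity
  rw [← hLr]
  obtain ⟨τ, hτ⟩ : ∃ τ : Ix Q R Λ → ℤ, τ = fun q => match q with
    | .inl _ => 8 * 2 ^ (A1 + G1 + G)
    | .inr (.inl x) => -(m x * 2 ^ (A + A1 + G))
    | .inr (.inr x) => ∑ i, if nn i = x then -(2 ^ A2 * Rj i) else 0 := ⟨_, rfl⟩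
  -- real versions
  obtain ⟨T, hT⟩ : ∃ T : (Σ _ : ℕ, ℕ × ℕ) → ℝ, T = fun x => -((m x : ℝ) / 2 ^ G1) := ⟨_, rfl⟩
  obtain ⟨ρ, hρ⟩ : ∃ ρ : Fin n → ℝ, ρ = fun j => t + ∑ x ∈ S1 Q R, T x * a1 * et x (w j) := ⟨_, rfl⟩
  have hτ0 : (τ (.inl ()) : ℝ) / Lr = 8 * t := by
    rw [hτ, hLr', ht]; push_cast
    rw [pow_add, pow_add]
    field_simp
  have hτ1 : ∀ x : ↥(S1 Q R), (τ (.inr (.inl x)) : ℝ) / Lr = T x := by
    intro x
    rw [hτ, hT, hLr']; push_cast
    rw [pow_add, pow_add]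
    field_simp
  have hRρ : ∀ j, (Rj j : ℝ) / Lr = ρ j := by
    intro j
    rw [hRj, hρ, hLr', ht, ha1, hT]
    push_cast
    rw [sub_div, Finset.sum_div, sub_eq_add_neg, ← Finset.sum_neg_distrib]
    congr 1
    · rw [pow_add, pow_add]
      field_simp
    · refine Finset.sum_congr rfl fun x hx => ?_
      have h1 := hz' x hx j
      rw [← h1]
      field_simp
  have hτ2 : ∀ x : ↥(S2 Λ), (τ (.inr (.inr x)) : ℝ) / Lr =
      ∑ i, if nn i = x then -(ρ i / a2) else 0 := by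
    intro x
    rw [hτ]
    push_cast
    rw [Finset.sum_div]
    refine Finset.sum_congr rfl fun i _ => ?_
    split_ifs
    · rw [← hRρ i, ha2]
      field_simp
    · simp
  -- estimates
  have hTc : ∀ x ∈ S1 Q R, |T x * a1 + t * c x| ≤ a1 / 2 ^ G1 := by
    intro x hx
    have h1 := abs_sub_round ((2 : ℝ) ^ G1 * t * c x / a1)
    have h2 : T x * a1 + t * c x = a1 / 2 ^ G1 * ((2 : ℝ) ^ G1 * t * c x / a1 - m x) := by
      rw [hT]
      field_simp
      ring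
    rw [h2, abs_mul, abs_of_pos (by positivity : 0 < a1 / 2 ^ G1)]
    have h3 : |(2 : ℝ) ^ G1 * t * c x / a1 - m x| ≤ 1 := by
      rw [hm]
      exact h1.trans (by norm_num)
    calc a1 / 2 ^ G1 * |(2 : ℝ) ^ G1 * t * c x / a1 - m x| ≤ a1 / 2 ^ G1 * 1 :=
          mul_le_mul_of_nonneg_left h3 (by positivity)
      _ = _ := mul_one _
  have hcm0 : S1 Q R = ∅ ∨ 0 ≤ cm := by
    rcases (S1 Q R).eq_empty_or_nonempty with h | ⟨x, hx⟩
    · exact Or.inl h
    · exact Or.inr ((abs_nonneg _).trans (hcm x hx))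
  have hetb : ∀ x ∈ S1 Q R, ∀ p, |et x p| ≤ 2 := by
    intro x hx p
    have h1 := het x hx p
    have h2 := e1_le Q R x p
    have h3 : |et x p| ≤ |et x p - e1 Q R x p| + |e1 Q R x p| := by
      have := abs_add_le (et x p - e1 Q R x p) (e1 Q R x p)
      simpa using this
    linarith
  obtain ⟨δ, hδ⟩ : ∃ δ : ℝ, δ = (S1 Q R).card * (2 * a1 / 2 ^ G1 + t * cm * ε) := ⟨_, rfl⟩
  have hρr : ∀ j, |ρ j - t * (1 - ∑ x ∈ S1 Q R, c x * e1 Q R x (w j))| ≤ δ := by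
    intro j
    have h1 : ρ j - t * (1 - ∑ x ∈ S1 Q R, c x * e1 Q R x (w j)) =
        ∑ x ∈ S1 Q R, ((T x * a1 + t * c x) * et x (w j) -
          t * c x * (et x (w j) - e1 Q R x (w j))) := by
      rw [hρ, mul_sub, Finset.mul_sum]
      have : ∀ a b c' : ℝ, t + a - (t * 1 - b) = a + b := fun a b c' => by ring
      rw [this _ _ 0, ← Finset.sum_add_distrib]
      refine Finset.sum_congr rfl fun x _ => ?_
      ring
    rw [h1]
    refine (Finset.abs_sum_le_sum_abs _ _).trans ?_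
    rw [hδ, ← nsmul_eq_mul, ← Finset.sum_const]
    refine Finset.sum_le_sum fun x hx => ?_
    refine (abs_sub _ _).trans ?_
    rw [abs_mul, abs_mul, abs_mul, abs_of_pos ht0]
    have b1 : |T x * a1 + t * c x| * |et x (w j)| ≤ a1 / 2 ^ G1 * 2 :=
      mul_le_mul (hTc x hx) (hetb x hx _) (abs_nonneg _) (by positivity)
    have b2 : t * |c x| * |et x (w j) - e1 Q R x (w j)| ≤ t * cm * ε :=
      mul_le_mul (mul_le_mul_of_nonneg_left (hcm x hx) ht0.le) (het x hx _) (abs_nonneg _)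
        (mul_nonneg ht0.le ((abs_nonneg _).trans (hcm x hx)))
    have b3 : a1 / 2 ^ G1 * 2 = 2 * a1 / 2 ^ G1 := by ring
    linarith
  have hρsq : ∑ j, ρ j ^ 2 ≤ 4 * t ^ 2 * S := by
    have h1 : ∀ j, ρ j ^ 2 ≤ 2 * (t ^ 2 * (1 - ∑ x ∈ S1 Q R, c x * e1 Q R x (w j)) ^ 2) +
        2 * δ ^ 2 := by
      intro j
      obtain ⟨r, hr⟩ : ∃ r : ℝ, r = t * (1 - ∑ x ∈ S1 Q R, c x * e1 Q R x (w j)) := ⟨_, rfl⟩
      have h2 := hρr j
      rw [← hr] at h2
      have h3 : (ρ j - r) ^ 2 ≤ δ ^ 2 := by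
        rw [← sq_abs]
        exact pow_le_pow_left₀ (abs_nonneg _) h2 2
      have h4 : ρ j ^ 2 ≤ 2 * r ^ 2 + 2 * (ρ j - r) ^ 2 := by
        nlinarith [sq_nonneg (ρ j - 2 * r)]
      have h5 : r ^ 2 = t ^ 2 * (1 - ∑ x ∈ S1 Q R, c x * e1 Q R x (w j)) ^ 2 := by
        rw [hr]; ring
      linarith
    refine (Finset.sum_le_sum fun j _ => h1 j).trans ?_
    rw [Finset.sum_add_distrib, ← Finset.mul_sum, ← Finset.mul_sum, Finset.sum_const,
      Finset.card_univ, Fintype.card_fin, nsmul_eq_mul]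
    rw [← hδ] at H1
    have h2 := mul_le_mul_of_nonneg_left hS (sq_nonneg t)
    nlinarith
  have hS0 : 0 ≤ S := le_trans (Finset.sum_nonneg fun _ _ => sq_nonneg _) hS
  -- own bumps
  have hinj : Function.Injective nn := by
    intro i j hij
    by_contra hne
    have h1 : e2 Λ (nn i) (w j) = 0 := by
      rw [hnn]
      exact e2_other Λ (lam i) (w i) (w j) (hsep i j (Ne.symm hne))
    have h2 : e2 Λ (nn j) (w j) = 1 := by
      rw [hnn]
      exact e2_own Λ (lam j) (w j)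
    rw [hij, h2] at h1
    exact one_ne_zero h1
  have hmem : ∀ i, nn i ∈ S2 Λ := fun i => by rw [hnn]; exact nd_mem (hlam i) _
  have hsumS2 : ∀ (g : Fin n → ℝ) (H : (Σ _ : ℕ, ℕ × ℕ) → ℝ),
      ∑ x : ↥(S2 Λ), (∑ i, if nn i = x then g i else 0) * H x = ∑ i, g i * H (nn i) := by
    intro g H
    rw [Finset.sum_coe_sort (S2 Λ) (fun x => (∑ i, if nn i = x then g i else 0) * H x)]
    simp only [Finset.sum_mul]
    rw [Finset.sum_comm]
    refine Finset.sum_congr rfl fun i _ => ?_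
    rw [Finset.sum_eq_single (nn i)]
    · rw [if_pos rfl]
    · intro b _ hb
      rw [if_neg (Ne.symm hb), zero_mul]
    · intro h
      exact absurd (hmem i) h
  refine ⟨τ, ?_, ?_, ?_⟩
  · rw [sum_Ix, hτ0]
    simp only [hτ1, hτ2]
    have s1 : ∑ x : ↥(S1 Q R), T x ^ 2 ≤ 2 * t ^ 2 * Cc / a1 ^ 2 + 1 / 24 := by
      rw [Finset.sum_coe_sort (S1 Q R) (fun x => T x ^ 2)]
      have h1 : ∀ x ∈ S1 Q R, T x ^ 2 ≤ 2 * t ^ 2 / a1 ^ 2 * c x ^ 2 + 2 / 4 ^ G1 := by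
        intro x hx
        have h2 := hTc x hx
        have h3 : |T x + t * c x / a1| ≤ 1 / 2 ^ G1 := by
          have : T x + t * c x / a1 = (T x * a1 + t * c x) / a1 := by field_simp
          rw [this, abs_div, abs_of_pos ha10, div_le_iff₀ ha10]
          calc |T x * a1 + t * c x| ≤ a1 / 2 ^ G1 := h2
            _ = 1 / 2 ^ G1 * a1 := by ring
        have h4 : (T x + t * c x / a1) ^ 2 ≤ 1 / 4 ^ G1 := by
          rw [← sq_abs]
          refine (pow_le_pow_left₀ (abs_nonneg _) h3 2).trans (le_of_eq ?_)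
          rw [div_pow, one_pow, ← pow_mul, mul_comm, pow_mul]
          norm_num
        have h5 : T x ^ 2 ≤ 2 * (t * c x / a1) ^ 2 + 2 * (T x + t * c x / a1) ^ 2 := by
          nlinarith [sq_nonneg (T x + 2 * (t * c x / a1))]
        have h6 : (t * c x / a1) ^ 2 = t ^ 2 / a1 ^ 2 * c x ^ 2 := by
          field_simp
        rw [h6] at h5
        have h7 : 2 * (1 / 4 ^ G1 : ℝ) = 2 / 4 ^ G1 := by ring
        have h8 : 2 * (t ^ 2 / a1 ^ 2 * c x ^ 2) = 2 * t ^ 2 / a1 ^ 2 * c x ^ 2 := by ring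
        linarith
      refine (Finset.sum_le_sum h1).trans ?_
      rw [Finset.sum_add_distrib, ← Finset.mul_sum, Finset.sum_const, nsmul_eq_mul]
      have h2 : 2 * t ^ 2 / a1 ^ 2 * ∑ x ∈ S1 Q R, c x ^ 2 ≤ 2 * t ^ 2 / a1 ^ 2 * Cc :=
        mul_le_mul_of_nonneg_left hc (by positivity)
      have h3 : 2 * t ^ 2 / a1 ^ 2 * Cc = 2 * t ^ 2 * Cc / a1 ^ 2 := by ring
      have h4 : ((S1 Q R).card : ℝ) * (2 / 4 ^ G1) = 2 * (S1 Q R).card / 4 ^ G1 := by ring
      linarith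
    have s2 : ∑ x : ↥(S2 Λ), (∑ i, if nn i = x then -(ρ i / a2) else 0) ^ 2 ≤
        4 * t ^ 2 * S / a2 ^ 2 := by
      have h1 : ∑ x : ↥(S2 Λ), (∑ i, if nn i = x then -(ρ i / a2) else 0) ^ 2 =
          ∑ i, (-(ρ i / a2)) ^ 2 := by
        have h2 := hsumS2 (fun i => -(ρ i / a2)) (fun x => ∑ i, if nn i = x then -(ρ i / a2) else 0)
        simp only [sq]
        rw [h2]
        refine Finset.sum_congr rfl fun i _ => ?_
        congr 1
        rw [Finset.sum_eq_single i]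
        · rw [if_pos rfl]
        · intro j _ hj
          rw [if_neg (fun h => hj (hinj h))]
        · simp
      rw [h1]
      have h2 : ∀ i, (-(ρ i / a2)) ^ 2 = 1 / a2 ^ 2 * ρ i ^ 2 := by
        intro i; field_simp
      simp only [h2]
      rw [← Finset.mul_sum]
      calc 1 / a2 ^ 2 * ∑ i, ρ i ^ 2 ≤ 1 / a2 ^ 2 * (4 * t ^ 2 * S) :=
            mul_le_mul_of_nonneg_left hρsq (by positivity)
        _ = _ := by ring
    nlinarith
  · intro j
    rw [sum_Ix, hτ0]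
    simp only [hτ1, hτ2]
    have p1 : ∑ x : ↥(S1 Q R), T x * Fam Q R Λ a1 a2 et (.inr (.inl x)) (w j) =
        ∑ x ∈ S1 Q R, T x * a1 * et x (w j) := by
      rw [← Finset.sum_coe_sort (S1 Q R) (fun x => T x * a1 * et x (w j))]
      refine Finset.sum_congr rfl fun x _ => ?_
      simp only [Fam]
      ring
    have p2 : ∑ x : ↥(S2 Λ), (∑ i, if nn i = x then -(ρ i / a2) else 0) *
        Fam Q R Λ a1 a2 et (.inr (.inr x)) (w j) = -ρ j := by
      have h1 := hsumS2 (fun i => -(ρ i / a2)) (fun x => a2 * e2 Λ x (w j))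
      simp only [Fam]
      rw [h1, Finset.sum_eq_single j]
      · have h2 : e2 Λ (nn j) (w j) = 1 := by
          rw [hnn]
          exact e2_own Λ (lam j) (w j)
        rw [h2]
        field_simp
      · intro i _ hij
        have h2 : e2 Λ (nn i) (w j) = 0 := by
          rw [hnn]
          exact e2_other Λ (lam i) (w i) (w j) (hsep i j (Ne.symm hij))
        rw [h2]
        ring
      · simp
    rw [p1, p2]
    have h3 : ρ j = t + ∑ x ∈ S1 Q R, T x * a1 * et x (w j) := by rw [hρ]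
    rw [h3]
    simp only [Fam]
    ring
  · -- the integral
    have hI : ∫ p, ∑ q, (τ q : ℝ) / Lr * Fam Q R Λ a1 a2 et q p =
        t + (∑ x ∈ S1 Q R, T x * a1 * ∫ p, et x p) + ∑ i, -ρ i * ∫ p, e2 Λ (nn i) p := by
      have h1 : ∀ p, ∑ q, (τ q : ℝ) / Lr * Fam Q R Λ a1 a2 et q p =
          t + (∑ x ∈ S1 Q R, T x * a1 * et x p) + ∑ i, -ρ i * e2 Λ (nn i) p := by
        intro p
        rw [sum_Ix, hτ0]
        simp only [hτ1, hτ2, Fam]
        have h2 := hsumS2 (fun i => -(ρ i / a2)) (fun x => a2 * e2 Λ x p)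
        rw [h2, Finset.sum_coe_sort (S1 Q R) (fun x => T x * (a1 * et x p))]
        have h3 : ∑ i, -(ρ i / a2) * (a2 * e2 Λ (nn i) p) = ∑ i, -ρ i * e2 Λ (nn i) p := by
          refine Finset.sum_congr rfl fun i _ => ?_
          field_simp
        rw [h3]
        have h4 : ∑ x ∈ S1 Q R, T x * (a1 * et x p) = ∑ x ∈ S1 Q R, T x * a1 * et x p :=
          Finset.sum_congr rfl fun x _ => by ring
        rw [h4]
        ring
      simp only [h1]
      have c1 : Continuous fun p => ∑ x ∈ S1 Q R, T x * a1 * et x p :=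
        continuous_finsetSum _ fun x hx => continuous_const.mul (hcont x hx)
      have c2 : Continuous fun p => ∑ i, -ρ i * e2 Λ (nn i) p :=
        continuous_finsetSum _ fun i _ => continuous_const.mul (e2_cont Λ _)
      have c0 : Continuous fun p : Tor 2 => t + ∑ x ∈ S1 Q R, T x * a1 * et x p :=
        continuous_const.add c1
      rw [integral_add (integrable_contR c0) (integrable_contR c2),
        integral_add (integrable_const _) (integrable_contR c1), integral_finsetSum,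
        integral_finsetSum]
      · simp only [integral_const_mul]
        simp
      · intro i _
        exact integrable_contR (continuous_const.mul (e2_cont Λ _))
      · intro x hx
        exact integrable_contR (continuous_const.mul (hcont x hx))
    rw [hI]
    have hb1 : |∑ x ∈ S1 Q R, T x * a1 * ∫ p, et x p| ≤ t / 8 := by
      refine le_trans ?_ H2
      refine (Finset.abs_sum_le_sum_abs _ _).trans ?_
      rw [← nsmul_eq_mul, ← Finset.sum_const]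
      refine Finset.sum_le_sum fun x hx => ?_
      rw [abs_mul]
      have h1 : |T x * a1| ≤ t * cm + a1 / 2 ^ G1 := by
        have h2 := hTc x hx
        have h3 : |T x * a1| ≤ |T x * a1 + t * c x| + |t * c x| := by
          have := abs_sub (T x * a1 + t * c x) (t * c x)
          simpa using this
        have h4 : |t * c x| ≤ t * cm := by
          rw [abs_mul, abs_of_pos ht0]
          exact mul_le_mul_of_nonneg_left (hcm x hx) ht0.le
        linarith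
      have h2 : |∫ p, et x p| ≤ ε := by
        have h3 : ∫ p, et x p = ∫ p, (et x p - e1 Q R x p) := by
          rw [integral_sub (integrable_contR (hcont x hx)) (integrable_contR (e1_cont hQ hx)),
            e1_int hQ hx, sub_zero]
        rw [h3]
        have h4 := norm_integral_le_of_norm_le_const (μ := (volume : Measure (Tor 2)))
          (f := fun p => et x p - e1 Q R x p) (C := ε) (ae_of_all _ fun p => het x hx p)
        simpa using h4
      have h0 : 0 ≤ t * cm + a1 / 2 ^ G1 := (abs_nonneg _).trans h1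
      exact mul_le_mul h1 h2 (abs_nonneg _) h0
    have hb2 : |∑ i, -ρ i * ∫ p, e2 Λ (nn i) p| ≤ t / 4 := by
      have h1 : |∑ i, -ρ i * ∫ p, e2 Λ (nn i) p| ≤ 1 / 2 ^ Λ * ∑ i, |ρ i| := by
        refine (Finset.abs_sum_le_sum_abs _ _).trans ?_
        rw [Finset.mul_sum]
        refine Finset.sum_le_sum fun i _ => ?_
        rw [abs_mul, abs_neg, mul_comm]
        exact mul_le_mul_of_nonneg_right (e2_int (hmem i)) (abs_nonneg _)
      have h2 : ∑ i, |ρ i| ≤ 2 * t * Real.sqrt (n * S) := by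
        have h3 : (∑ i, |ρ i|) ^ 2 ≤ n * ∑ i, ρ i ^ 2 := by
          have h4 := sq_sum_le_card_mul_sum_sq (s := (Finset.univ : Finset (Fin n)))
            (f := fun i => |ρ i|)
          simp only [sq_abs, Finset.card_univ, Fintype.card_fin] at h4
          exact h4
        have h4 : (∑ i, |ρ i|) ^ 2 ≤ (2 * t * Real.sqrt (n * S)) ^ 2 := by
          rw [mul_pow, Real.sq_sqrt (by positivity)]
          calc (∑ i, |ρ i|) ^ 2 ≤ n * ∑ i, ρ i ^ 2 := h3
            _ ≤ n * (4 * t ^ 2 * S) := mul_le_mul_of_nonneg_left hρsq (by positivity)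
            _ = _ := by ring
        exact (sq_le_sq₀ (Finset.sum_nonneg fun _ _ => abs_nonneg _) (by positivity)).1 h4
      calc |∑ i, -ρ i * ∫ p, e2 Λ (nn i) p| ≤ 1 / 2 ^ Λ * ∑ i, |ρ i| := h1
        _ ≤ 1 / 2 ^ Λ * (2 * t * Real.sqrt (n * S)) :=
            mul_le_mul_of_nonneg_left h2 (by positivity)
        _ = 2 * t * (1 / 2 ^ Λ * Real.sqrt (n * S)) := by ring
        _ ≤ 2 * t * (1 / 8) := mul_le_mul_of_nonneg_left H5 (by positivity)
        _ = t / 4 := by ring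
    have := (abs_le.1 hb1).1
    have := (abs_le.1 hb2).1
    linarith

end

end Pool.Agent.W691.Ran
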