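import Mathlib
import Pool.Agent.W691.Ran.Shift

set_option autoImplicit false

namespace Pool.Agent.W691.Ran

open MeasureTheory Pool.Agent.Helper150.Iid
open scoped ENNReal

noncomputable section

/-- All combinations of the family with coefficients at most one lie in the unit ball. -/
theorem fam_ball (hG : S_GRID) (k : ℝ) (hk : 0 ≤ k) : ∃ C : ℝ, 0 < C ∧ ∀ (Q R Λ : ℕ)
    (et : (Σ _ : ℕ, ℕ × ℕ) → Tor 2 → ℝ) (ε a1 a2 : ℝ), 2 ≤ Q →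
    (∀ x ∈ S1 Q R, NB k (fun p => et x p - e1 Q R x p) ε) →
    C * (R * ((Q : ℝ) ^ (R + 1)) ^ (2 * k)) * a1 ^ 2 ≤ 1 →
    C * (((Λ : ℝ) + 1) ^ 2 * ((2 : ℝ) ^ Λ) ^ (2 * k)) * a2 ^ 2 ≤ 1 →
    ((S1 Q R).card : ℝ) ^ 2 * (a1 ^ 2 * ε) ≤ 1 / 64 →
    ∀ ξ : Ix Q R Λ → ℝ, (∀ q, |ξ q| ≤ 1) →
      (fun p => ∑ q, ξ q * Fam Q R Λ a1 a2 et q p) ∈ ball 2 k := by
  classical
  obtain ⟨C1, hC1, H1⟩ := NB_f1 k hk
  obtain ⟨C2, hC2, H2⟩ := NB_f2 hG k hk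
  refine ⟨128 * C1 + 4096 * C2 + 1, by positivity, ?_⟩
  intro Q R Λ et ε a1 a2 hQ hε h1 h2 h3 ξ hξ
  have hQ0 : (0 : ℝ) < Q := by exact_mod_cast (by omega : 0 < Q)
  obtain ⟨N, hN⟩ : ∃ N : ℝ, N = (Q : ℝ) ^ (R + 1) := ⟨_, rfl⟩
  have hN0 : 0 < N := by rw [hN]; positivity
  have hNk : 0 ≤ N ^ (2 * k) := Real.rpow_nonneg hN0.le _
  -- coefficients extended by zero
  obtain ⟨g1, hg1⟩ : ∃ g1 : (Σ _ : ℕ, ℕ × ℕ) → ℝ, g1 = fun x =>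
    if h : x ∈ S1 Q R then a1 * ξ (.inr (.inl ⟨x, h⟩)) else 0 := ⟨_, rfl⟩
  obtain ⟨g2, hg2⟩ : ∃ g2 : (Σ _ : ℕ, ℕ × ℕ) → ℝ, g2 = fun x =>
    if h : x ∈ S2 Λ then a2 * ξ (.inr (.inr ⟨x, h⟩)) else 0 := ⟨_, rfl⟩
  have hg1b : ∀ x ∈ S1 Q R, g1 x ^ 2 ≤ a1 ^ 2 := by
    intro x hx
    rw [hg1]
    simp only [dif_pos hx]
    rw [mul_pow]
    have : ξ (.inr (.inl ⟨x, hx⟩)) ^ 2 ≤ 1 := by
      rw [← sq_abs]
      exact pow_le_one₀ (abs_nonneg _) (hξ _)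
    nlinarith [sq_nonneg a1]
  have hg2b : ∀ x ∈ S2 Λ, g2 x ^ 2 ≤ a2 ^ 2 := by
    intro x hx
    rw [hg2]
    simp only [dif_pos hx]
    rw [mul_pow]
    have : ξ (.inr (.inr ⟨x, hx⟩)) ^ 2 ≤ 1 := by
      rw [← sq_abs]
      exact pow_le_one₀ (abs_nonneg _) (hξ _)
    nlinarith [sq_nonneg a2]
  have n0 : NB k (fun _ => ξ (.inl ()) / 8) (1 / 64) := by
    refine NB_mono (NB_const k _) ?_
    have : ξ (.inl ()) ^ 2 ≤ 1 := by
      rw [← sq_abs]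
      exact pow_le_one₀ (abs_nonneg _) (hξ _)
    rw [div_pow]
    norm_num
    linarith
  have n1 : NB k (fun p => ∑ x ∈ S1 Q R, g1 x * e1 Q R x p) (1 / 64) := by
    refine NB_mono (H1 Q R g1 hQ) ?_
    have h4 : ∑ x ∈ S1 Q R, g1 x ^ 2 ≤ 2 * R * N * a1 ^ 2 := by
      refine (Finset.sum_le_sum hg1b).trans ?_
      rw [Finset.sum_const, nsmul_eq_mul, card_S1, hN]
    rw [← hN] at h1 ⊢
    calc C1 * N ^ (2 * k) / N * ∑ x ∈ S1 Q R, g1 x ^ 2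
        ≤ C1 * N ^ (2 * k) / N * (2 * R * N * a1 ^ 2) :=
          mul_le_mul_of_nonneg_left h4 (by positivity)
      _ = (1 / 64) * (128 * C1 * (R * N ^ (2 * k)) * a1 ^ 2) := by
          field_simp
          ring
      _ ≤ (1 / 64) * ((128 * C1 + 4096 * C2 + 1) * (R * N ^ (2 * k)) * a1 ^ 2) := by
          refine mul_le_mul_of_nonneg_left ?_ (by norm_num)
          refine mul_le_mul_of_nonneg_right ?_ (sq_nonneg _)
          refine mul_le_mul_of_nonneg_right ?_ (by positivity)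
          linarith
      _ ≤ (1 / 64) * 1 := mul_le_mul_of_nonneg_left h1 (by norm_num)
      _ = 1 / 64 := by norm_num
  have n2 : NB k (fun p => ∑ x ∈ S2 Λ, g2 x * e2 Λ x p) (1 / 64) := by
    refine NB_mono (H2 Λ g2) ?_
    have h4 : ∑ x ∈ S2 Λ, g2 x ^ 2 ≤ 64 * ((Λ : ℝ) + 1) * 2 ^ Λ * a2 ^ 2 := by
      refine (Finset.sum_le_sum hg2b).trans ?_
      rw [Finset.sum_const, nsmul_eq_mul, card_S2]
    obtain ⟨P, hP⟩ : ∃ P : ℝ, P = ((2 : ℝ) ^ Λ) ^ (2 * k) := ⟨_, rfl⟩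
    have hP0 : 0 ≤ P := by rw [hP]; positivity
    rw [← hP] at h2 ⊢
    calc C2 * ((Λ : ℝ) + 1) * P / 2 ^ Λ * ∑ x ∈ S2 Λ, g2 x ^ 2
        ≤ C2 * ((Λ : ℝ) + 1) * P / 2 ^ Λ * (64 * ((Λ : ℝ) + 1) * 2 ^ Λ * a2 ^ 2) :=
          mul_le_mul_of_nonneg_left h4 (by positivity)
      _ = (1 / 64) * (4096 * C2 * (((Λ : ℝ) + 1) ^ 2 * P) * a2 ^ 2) := by
          field_simp
          ring
      _ ≤ (1 / 64) * ((128 * C1 + 4096 * C2 + 1) * (((Λ : ℝ) + 1) ^ 2 * P) * a2 ^ 2) := by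
          refine mul_le_mul_of_nonneg_left ?_ (by norm_num)
          refine mul_le_mul_of_nonneg_right ?_ (sq_nonneg _)
          refine mul_le_mul_of_nonneg_right ?_ (by positivity)
          linarith
      _ ≤ (1 / 64) * 1 := mul_le_mul_of_nonneg_left h2 (by norm_num)
      _ = 1 / 64 := by norm_num
  have n3 : NB k (fun p => ∑ x ∈ S1 Q R, g1 x * (et x p - e1 Q R x p)) (1 / 64) := by
    have h5 : ∀ x ∈ S1 Q R, NB k (fun p => g1 x * (et x p - e1 Q R x p)) (a1 ^ 2 * ε) := by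
      intro x hx
      refine NB_mono (NB_smul (hε x hx) (g1 x)) ?_
      exact mul_le_mul_of_nonneg_right (hg1b x hx) (NB_nonneg (hε x hx))
    exact NB_mono (NB_sum (S1 Q R) _ _ h5) h3
  have htot := NB_add (NB_add n0 n1) (NB_add n3 n2)
  refine ball_of_NB (E := 2 * (2 * (1 / 64) + 2 * (1 / 64)) + 2 * (2 * (1 / 64) + 2 * (1 / 64)))
    ?_ (by norm_num)
  refine (congrArg (fun f => NB k f _) ?_).mp htot
  funext p
  rw [sum_Ix]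
  simp only [Fam]
  have p1 : ∑ x : ↥(S1 Q R), ξ (.inr (.inl x)) * (a1 * et x p) =
      ∑ x ∈ S1 Q R, g1 x * et x p := by
    rw [← Finset.sum_coe_sort (S1 Q R) (fun x => g1 x * et x p)]
    refine Finset.sum_congr rfl fun x _ => ?_
    rw [hg1]
    simp only [dif_pos x.2]
    ring
  have p2 : ∑ x : ↥(S2 Λ), ξ (.inr (.inr x)) * (a2 * e2 Λ x p) =
      ∑ x ∈ S2 Λ, g2 x * e2 Λ x p := by
    rw [← Finset.sum_coe_sort (S2 Λ) (fun x => g2 x * e2 Λ x p)]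
    refine Finset.sum_congr rfl fun x _ => ?_
    rw [hg2]
    simp only [dif_pos x.2]
    ring
  rw [p1, p2]
  have p3 : ∑ x ∈ S1 Q R, g1 x * (et x p - e1 Q R x p) =
      ∑ x ∈ S1 Q R, g1 x * et x p - ∑ x ∈ S1 Q R, g1 x * e1 Q R x p := by
    rw [← Finset.sum_sub_distrib]
    exact Finset.sum_congr rfl fun x _ => by ring
  rw [p3]
  ring

end

end Pool.Agent.W691.Ran
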