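import Mathlib
import Pool.Agent.W691.Ran.Ball
import Pool.Agent.Helper150.Iid.Asm3

set_option autoImplicit false

namespace Pool.Agent.W691.Ran

open MeasureTheory Pool.Agent.Helper150.Iid Filter Topology
open scoped ENNReal ContDiff

noncomputable section

theorem ex_four (Y : ℝ) (hY : 0 ≤ Y) : ∃ A : ℕ, Y ≤ 4 ^ A ∧ (4 : ℝ) ^ A ≤ 4 * (Y + 1) := by
  classical
  have hex : ∃ A : ℕ, Y ≤ 4 ^ A := by
    obtain ⟨A, hA⟩ := pow_unbounded_of_one_lt Y (by norm_num : (1 : ℝ) < 4)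
    exact ⟨A, hA.le⟩
  refine ⟨Nat.find hex, Nat.find_spec hex, ?_⟩
  rcases Nat.eq_zero_or_pos (Nat.find hex) with h | h
  · rw [h, pow_zero]
    linarith
  · obtain ⟨B, hB⟩ : ∃ B, Nat.find hex = B + 1 := ⟨Nat.find hex - 1, by omega⟩
    have h1 := Nat.find_min hex (m := B) (by omega)
    rw [hB, pow_succ]
    push Not at h1
    linarith

theorem ev_small (c d : ℝ) (hd : 0 < d) : ∀ᶠ ε : ℝ in 𝓝[>] 0, c * ε ≤ d := by
  have h1 : Tendsto (fun ε : ℝ => c * ε) (𝓝 0) (𝓝 (c * 0)) := tendsto_id.const_mul c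
  rw [mul_zero] at h1
  exact (h1.mono_left nhdsWithin_le_nhds).eventually_le_const hd

theorem ev_big (c d b : ℝ) (hb : 1 < b) (hd : 0 < d) : ∀ᶠ G : ℕ in atTop, c / b ^ G ≤ d := by
  have h1 : Tendsto (fun G : ℕ => c * (b⁻¹) ^ G) atTop (𝓝 (c * 0)) :=
    (tendsto_pow_atTop_nhds_zero_of_lt_one (by positivity) (inv_lt_one_of_one_lt₀ hb)).const_mul c
  rw [mul_zero] at h1
  filter_upwards [h1.eventually_le_const hd] with G hG
  rw [inv_pow] at hG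
  rw [div_eq_mul_inv]
  exact hG

theorem psi_smooth (K x0 : ℝ) (hK : 0 < K) : ContDiff ℝ ∞ (psi K x0) := by
  have h1 : psi K x0 = fun x => (Real.pi * K)⁻¹ * deriv (pb AA K x0) x := by
    funext x
    rw [deriv_pb_AA]
    have := Real.pi_pos
    field_simp
  rw [h1]
  have h2 : ContDiff ℝ ∞ (deriv (pb AA K x0)) := by
    have h3 := nice_AA.smooth K x0
    exact (contDiff_infty_iff_deriv.1 h3).2
  exact contDiff_const.mul h2

theorem meas_node {n : ℕ} (j : Fin n) (Z : Set (Tor 2)) :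
    (Measure.pi (fun _ : Fin n => (volume : Measure (Tor 2)))) {w | w j ∈ Z} ≤ volume Z := by
  have h1 : {w : Fin n → Tor 2 | w j ∈ Z} ⊆ (Function.eval j) ⁻¹' (toMeasurable volume Z) :=
    fun w hw => subset_toMeasurable _ _ hw
  refine (measure_mono h1).trans ?_
  have h2 := (measurePreserving_eval (fun _ : Fin n => (volume : Measure (Tor 2))) j).measure_preimage
    (s := toMeasurable volume Z) (measurableSet_toMeasurable volume Z).nullMeasurableSet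
  rw [h2, measure_toMeasurable]

theorem K3aux (R P N U S t Cb Cr C b1 b2 : ℝ) (A1 A2 : ℕ) (hR : 1 ≤ R) (hP : 1 ≤ P) (hN : 1 ≤ N)
    (hU : 1 ≤ U) (hS : 0 < S) (hCb : 0 < Cb) (hCr : 0 ≤ Cr)
    (hC : C = Cr + 24 * (64 + 17 * (Cb + 1)))
    (hb1sq : b1 ^ 2 = 1 / 4 ^ A1) (hb2sq : b2 ^ 2 = 1 / 4 ^ A2)
    (hA1b : (4 : ℝ) ^ A1 ≤ 4 * (Cb * (R * P) + 1)) (hA2b : (4 : ℝ) ^ A2 ≤ 4 * (Cb * U + 1))
    (hA1 : C * (1 + R * P * N + U * S) * t ^ 2 ≤ 1) :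
    64 * t ^ 2 + 2 * t ^ 2 * (N / 256) / b1 ^ 2 + 4 * t ^ 2 * S / b2 ^ 2 ≤ 1 / 24 := by
  have e1 : 2 * t ^ 2 * (N / 256) / b1 ^ 2 = t ^ 2 * (N / 128) * 4 ^ A1 := by
    rw [hb1sq]; field_simp; ring
  have e2 : 4 * t ^ 2 * S / b2 ^ 2 = t ^ 2 * (4 * S) * 4 ^ A2 := by
    rw [hb2sq]; field_simp
  rw [e1, e2]
  have hRP1 : 1 ≤ R * P := one_le_mul_of_one_le_of_one_le hR hP
  have f1 : (4 : ℝ) ^ A1 ≤ 4 * (Cb + 1) * (R * P) := by
    have : 4 * (Cb + 1) * (R * P) = 4 * (Cb * (R * P)) + 4 * (R * P) := by ring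
    linarith
  have f2 : (4 : ℝ) ^ A2 ≤ 4 * (Cb + 1) * U := by
    have : 4 * (Cb + 1) * U = 4 * (Cb * U) + 4 * U := by ring
    linarith
  have g1 : t ^ 2 * (N / 128) * 4 ^ A1 ≤ t ^ 2 * (N / 128) * (4 * (Cb + 1) * (R * P)) :=
    mul_le_mul_of_nonneg_left f1 (by positivity)
  have g2 : t ^ 2 * (4 * S) * 4 ^ A2 ≤ t ^ 2 * (4 * S) * (4 * (Cb + 1) * U) :=
    mul_le_mul_of_nonneg_left f2 (by positivity)
  have g3 : 24 * (64 * t ^ 2 + t ^ 2 * (N / 128) * (4 * (Cb + 1) * (R * P)) +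
      t ^ 2 * (4 * S) * (4 * (Cb + 1) * U)) ≤ C * (1 + R * P * N + U * S) * t ^ 2 := by
    have q1 : 0 ≤ t ^ 2 := sq_nonneg _
    have q2 : 0 ≤ R * P * N * t ^ 2 := by positivity
    have q3 : 0 ≤ U * S * t ^ 2 := by positivity
    have r1 : 24 * (64 * t ^ 2 + t ^ 2 * (N / 128) * (4 * (Cb + 1) * (R * P)) +
      t ^ 2 * (4 * S) * (4 * (Cb + 1) * U)) = 24 * 64 * t ^ 2 +
        24 * (Cb + 1) / 32 * (R * P * N * t ^ 2) + 24 * 16 * (Cb + 1) * (U * S * t ^ 2) := by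
      ring
    have r2 : C * (1 + R * P * N + U * S) * t ^ 2 =
        C * t ^ 2 + C * (R * P * N * t ^ 2) + C * (U * S * t ^ 2) := by
      ring
    rw [r1, r2]
    have s1 : 24 * 64 * t ^ 2 ≤ C * t ^ 2 :=
      mul_le_mul_of_nonneg_right (by rw [hC]; linarith) q1
    have s2 : 24 * (Cb + 1) / 32 * (R * P * N * t ^ 2) ≤ C * (R * P * N * t ^ 2) :=
      mul_le_mul_of_nonneg_right (by rw [hC]; linarith) q2
    have s3 : 24 * 16 * (Cb + 1) * (U * S * t ^ 2) ≤ C * (U * S * t ^ 2) :=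
      mul_le_mul_of_nonneg_right (by rw [hC]; linarith) q3
    linarith
  linarith

/-- The lower bound with free parameters. -/
theorem ran_param (hG : S_GRID) (hQu : S_QUANT) (hA : S_AVG) (k : ℝ) (hk : 1 / 2 < k)
    (hk1 : k < 1) : ∃ κ C : ℝ, 0 < κ ∧ κ ≤ 1 ∧ 0 < C ∧
    ∀ (n Q : ℕ) (_ : 0 < Q) (R μ Λ : ℕ) (τ : ℝ), 32 ≤ Q →
    0 < μ → 0 < τ → n = μ * Q ^ (R + 1) → 8 * n * (Λ + 1) ≤ 2 ^ Λ →
    2 * R * (Q : ℝ) ^ R * Real.exp (-(μ * Q)) ≤ 1 / 6 →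
    (1 - κ / (1024 * μ)) ^ R * (2 * n) / τ ≤ 1 / 6 →
    (3 * n / 2 ^ (Λ + 1) : ℝ) ≤ 1 / 6 → 1 ≤ R →
    ∀ S : ℝ, 2 * τ + C * (R / Q) ^ 2 * n ≤ S →
    1 / 2 ^ Λ * Real.sqrt (n * S) ≤ 1 / 8 →
    ∀ (A : ℕ), C * (1 + R * ((Q : ℝ) ^ (R + 1)) ^ (2 * k) * (Q : ℝ) ^ (R + 1) +
      ((Λ : ℝ) + 1) ^ 2 * ((2 : ℝ) ^ Λ) ^ (2 * k) * S) * (1 / 2 ^ A) ^ 2 ≤ 1 →
    ENNReal.ofReal (1 / 2 ^ A / 128) ≤ ranIid 2 k n := by
  have hk0 : 0 ≤ k := by linarith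
  obtain ⟨κ, hκ0, hκ1, hκ⟩ := bad_total
  obtain ⟨Cb, hCb, HB⟩ := fam_ball hG k hk0
  obtain ⟨Cr, hCr, HR⟩ := res_sum
  refine ⟨κ, Cr + 24 * (64 + 17 * (Cb + 1)), hκ0, hκ1, by positivity, ?_⟩
  intro n Q hQ R μ Λ τ hQ32 hμ hτ hn hΛ a1 a2 a3 hR1 S hS hsm A hA1
  have hbad := hκ n Q hQ R μ Λ τ hQ32 hμ hτ hn hΛ a1 a2 a3
  obtain ⟨C, hC⟩ : ∃ C : ℝ, C = Cr + 24 * (64 + 17 * (Cb + 1)) := ⟨_, rfl⟩
  rw [← hC] at hS hA1
  have hC0 : 0 < C := by rw [hC]; positivity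
  have hQr : (1 : ℝ) ≤ Q := by exact_mod_cast hQ
  have hRr : (1 : ℝ) ≤ R := by exact_mod_cast hR1
  have hμr : (1 : ℝ) ≤ μ := by exact_mod_cast hμ
  obtain ⟨N, hN⟩ : ∃ N : ℝ, N = (Q : ℝ) ^ (R + 1) := ⟨_, rfl⟩
  have hN1 : 1 ≤ N := by rw [hN]; exact one_le_pow₀ hQr
  have hN0 : 0 < N := by linarith
  rw [← hN] at hA1
  have hnN : (n : ℝ) = μ * N := by rw [hn, hN]; push_cast; ring
  have hn0 : (0 : ℝ) < n := by rw [hnN]; positivity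
  obtain ⟨P, hP⟩ : ∃ P : ℝ, P = N ^ (2 * k) := ⟨_, rfl⟩
  have hP1 : 1 ≤ P := by rw [hP]; exact Real.one_le_rpow hN1 (by linarith)
  obtain ⟨U, hU⟩ : ∃ U : ℝ, U = ((Λ : ℝ) + 1) ^ 2 * ((2 : ℝ) ^ Λ) ^ (2 * k) := ⟨_, rfl⟩
  have hU1 : 1 ≤ U := by
    rw [hU]
    have e1 : (1 : ℝ) ≤ ((Λ : ℝ) + 1) ^ 2 := by
      have : (0 : ℝ) ≤ Λ := by positivity
      exact one_le_pow₀ (by linarith)
    have e2 : (1 : ℝ) ≤ ((2 : ℝ) ^ Λ) ^ (2 * k) :=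
      Real.one_le_rpow (one_le_pow₀ (by norm_num)) (by linarith)
    exact one_le_mul_of_one_le_of_one_le e1 e2
  rw [← hP, ← hU] at hA1
  have hS0 : 0 < S := by
    have : 0 ≤ C * ((R : ℝ) / Q) ^ 2 * n := by positivity
    linarith
  obtain ⟨t, ht⟩ : ∃ t : ℝ, t = 1 / 2 ^ A := ⟨_, rfl⟩
  have ht0 : 0 < t := by rw [ht]; positivity
  rw [← ht] at hA1 ⊢
  -- the amplitudes
  obtain ⟨A1, hA1a, hA1b⟩ := ex_four (Cb * (R * P)) (by positivity)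
  obtain ⟨A2, hA2a, hA2b⟩ := ex_four (Cb * U) (by positivity)
  obtain ⟨b1, hb1⟩ : ∃ b1 : ℝ, b1 = 1 / 2 ^ A1 := ⟨_, rfl⟩
  obtain ⟨b2, hb2⟩ : ∃ b2 : ℝ, b2 = 1 / 2 ^ A2 := ⟨_, rfl⟩
  have hb10 : 0 < b1 := by rw [hb1]; positivity
  have hb20 : 0 < b2 := by rw [hb2]; positivity
  have h4 : ∀ B : ℕ, ((1 : ℝ) / 2 ^ B) ^ 2 = 1 / 4 ^ B := by
    intro B
    rw [div_pow, one_pow, ← pow_mul, mul_comm, pow_mul]
    norm_num
  have hb1sq : b1 ^ 2 = 1 / 4 ^ A1 := by rw [hb1, h4]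
  have hb2sq : b2 ^ 2 = 1 / 4 ^ A2 := by rw [hb2, h4]
  have B1 : Cb * (R * ((Q : ℝ) ^ (R + 1)) ^ (2 * k)) * b1 ^ 2 ≤ 1 := by
    rw [← hN, ← hP, hb1sq, mul_one_div, div_le_one (by positivity)]
    exact hA1a
  have B2 : Cb * (((Λ : ℝ) + 1) ^ 2 * ((2 : ℝ) ^ Λ) ^ (2 * k)) * b2 ^ 2 ≤ 1 := by
    rw [← hU, hb2sq, mul_one_div, div_le_one (by positivity)]
    exact hA2a
  obtain ⟨cm, hcm⟩ : ∃ cm : ℝ, cm = n + 1 := ⟨_, rfl⟩
  have hcm0 : 0 < cm := by rw [hcm]; positivity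
  obtain ⟨D, hD⟩ : ∃ D : ℝ, D = ((S1 Q R).card : ℝ) := ⟨_, rfl⟩
  have hD0 : 0 ≤ D := by rw [hD]; positivity
  obtain ⟨η, hη⟩ : ∃ η : ℝ, η = t * Real.sqrt (S / n) / 2 := ⟨_, rfl⟩
  have hη0 : 0 < η := by
    rw [hη]
    have : 0 < Real.sqrt (S / n) := Real.sqrt_pos.2 (by positivity)
    positivity
  obtain ⟨G1, hG1a, hG1b⟩ := ((ev_big (D * (2 * b1)) η 2 (by norm_num) hη0).and
    (ev_big (2 * D) (1 / 24) 4 (by norm_num) (by norm_num))).exists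
  obtain ⟨ε, ⟨hε1, hε2, hε3, hε4, hε5⟩, hεpos⟩ :=
    (((ev_small 1 1 one_pos).and ((ev_small (D * (t * cm)) η hη0).and
      ((ev_small (D * (t * cm + b1 / 2 ^ G1)) (t / 8) (by positivity)).and
      ((ev_small (D ^ 2 * b1 ^ 2) (1 / 64) (by norm_num)).and
      (ev_small (n * D) (1 / 4) (by norm_num)))))).and self_mem_nhdsWithin).exists
  have hε0 : 0 < ε := hεpos
  -- the quantised functions
  have hquant : ∀ x : Σ _ : ℕ, ℕ × ℕ, ∃ (e : Tor 2 → ℝ) (G : ℕ) (Z : Set (Tor 2)), Continuous e ∧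
    (volume : Measure (Tor 2)) Z ≤ ENNReal.ofReal ε ∧
    (∀ p, p ∉ Z → ∃ z : ℤ, (2 : ℝ) ^ G * e p = z) ∧
    (∀ p, |e p - cf (u1 Q x) (p 0) * cf (v1 Q R x) (p 1)| ≤ ε) ∧
    NB k (fun p => e p - cf (u1 Q x) (p 0) * cf (v1 Q R x) (p 1)) ε := by
    intro x
    exact hQu k (by linarith) hk1 (u1 Q x) (v1 Q R x) (psi_periodic _ _) (nice_bb.per _ _)
      (psi_smooth _ _ (by positivity)) (nice_bb.smooth _ _) ε hε0
  choose et Gx' Zx hc1 hc2 hc3 hc4 hc5 using hquant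
  obtain ⟨G, hGs⟩ : ∃ G : ℕ, G = ∑ x ∈ S1 Q R, Gx' x := ⟨_, rfl⟩
  have hGle : ∀ x ∈ S1 Q R, Gx' x ≤ G := fun x hx => by
    rw [hGs]; exact Finset.single_le_sum (fun _ _ => Nat.zero_le _) hx
  have het : ∀ x ∈ S1 Q R, ∀ p, |et x p - e1 Q R x p| ≤ ε := fun x _ p => hc4 x p
  have hball := HB Q R Λ et ε b1 b2 (by omega) (fun x _ => hc5 x) B1 B2 (by
    rw [← hD, ← mul_assoc]; exact hε4)
  -- the bad set
  obtain ⟨Bz, hBz⟩ : ∃ Bz : Set (Fin n → Tor 2), Bz = ⋃ j : Fin n, ⋃ x ∈ S1 Q R,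
    {w : Fin n → Tor 2 | w j ∈ Zx x} := ⟨_, rfl⟩
  have hBzm : (Measure.pi (fun _ : Fin n => (volume : Measure (Tor 2)))) Bz ≤ 1 / 4 := by
    rw [hBz]
    refine (measure_iUnion_le _).trans ?_
    rw [tsum_fintype]
    have h1 : ∀ j : Fin n, (Measure.pi (fun _ : Fin n => (volume : Measure (Tor 2))))
        (⋃ x ∈ S1 Q R, {w : Fin n → Tor 2 | w j ∈ Zx x}) ≤ ENNReal.ofReal (D * ε) := by
      intro j
      refine (measure_biUnion_finset_le _ _).trans ?_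
      refine (Finset.sum_le_sum fun x _ => (meas_node j (Zx x)).trans (hc2 x)).trans ?_
      rw [Finset.sum_const, nsmul_eq_mul, hD, ENNReal.ofReal_mul (by positivity),
        ENNReal.ofReal_natCast]
    refine (Finset.sum_le_sum fun j _ => h1 j).trans ?_
    rw [Finset.sum_const, Finset.card_univ, Fintype.card_fin, nsmul_eq_mul,
      ← ENNReal.ofReal_natCast, ← ENNReal.ofReal_mul (by positivity)]
    refine (ENNReal.ofReal_le_ofReal (?_ : _ ≤ (1 : ℝ) / 4)).trans (le_of_eq ?_)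
    · calc (n : ℝ) * (D * ε) = n * D * ε := by ring
        _ ≤ 1 / 4 := hε5
    · rw [ENNReal.ofReal_div_of_pos (by norm_num)]
      simp
  have hBad : (Measure.pi (fun _ : Fin n => (volume : Measure (Tor 2))))
      ((Bad1 n Q hQ R μ ∪ Bad2 n Q hQ R μ τ ∪ Bad3 n Λ) ∪ Bz) ≤ 3 / 4 := by
    refine (measure_union_le _ _).trans ((add_le_add hbad hBzm).trans (le_of_eq ?_))
    rw [← ENNReal.toReal_eq_toReal_iff' (by finiteness) (by finiteness),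
      ENNReal.toReal_add (by finiteness) (by finiteness)]
    simp only [ENNReal.toReal_div, ENNReal.toReal_one, ENNReal.toReal_ofNat]
    norm_num
  have hLpos : 0 < 2 ^ (A + A1 + G1 + G) := by positivity
  have hcontF : ∀ q, Continuous (Fam Q R Λ b1 b2 et q) := by
    rintro (_ | x | x)
    · exact continuous_const
    · exact continuous_const.mul (hc1 x)
    · exact continuous_const.mul (e2_cont Λ x)
  have hgoal : t / 128 = t / 2 / 64 := by ring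
  rw [hgoal]
  refine hA n k (Ix Q R Λ) (Fam Q R Λ b1 b2 et) (2 ^ (A + A1 + G1 + G)) hLpos hcontF hball
    (t / 2) (by positivity) _ hBad ?_
  intro w hw
  rw [Set.mem_union, Set.mem_union, Set.mem_union, not_or, not_or, not_or] at hw
  obtain ⟨⟨⟨g1, g2⟩, g3⟩, g4⟩ := hw
  have hen := good_energy hQ R μ τ w g1 g2
  have hiso := good_iso w g3
  have hO : 0 < 128 * μ := by positivity
  have hres := HR n Q hQ R (128 * μ) hO w
  have hR0 : (0 : ℝ) ≤ (R / Q : ℝ) ^ 2 * n := by positivity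
  have hresS : ∑ j, res hQ R (128 * μ) w j ^ 2 ≤ S := by
    refine hres.trans (le_trans ?_ hS)
    have h1 : Cr * ((R : ℝ) / Q) ^ 2 * n ≤ C * ((R : ℝ) / Q) ^ 2 * n := by
      have := mul_le_mul_of_nonneg_right (by rw [hC]; linarith : Cr ≤ C) hR0
      linarith
    linarith
  -- coefficients
  obtain ⟨c, hc⟩ : ∃ c : (Σ _ : ℕ, ℕ × ℕ) → ℝ, c = fun x =>
    if h : x.2.2 < 2 * Q ^ (R + 1) then
      cx hQ R (128 * μ) (fun i => w i 0) (fun i => w i 1) x.1 x.2.1 ⟨x.2.2, h⟩ else 0 := ⟨_, rfl⟩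
  have hcc : ∀ l a (m : Fin (2 * Q ^ (R + 1))), c ⟨l, a, m⟩ =
      cx hQ R (128 * μ) (fun i => w i 0) (fun i => w i 1) l a m := by
    intro l a m
    rw [hc]
    simp only [dif_pos m.2]
  have hf1 : ∀ p, f1 Q R (cx hQ R (128 * μ) (fun i => w i 0) (fun i => w i 1)) p =
      ∑ x ∈ S1 Q R, c x * e1 Q R x p := fun p =>
    f1_eq_sum hQ R _ p c (fun l a m _ => hcc l a m)
  have hcsum : ∑ x ∈ S1 Q R, c x ^ 2 ≤ N / 256 := by
    have h1 := cof_total (128 * μ) hO (btx Q R (fun i => w i 1)) R (fun l _ => bw_wts hQ R l _)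
      (xi Q) (fun l a => xi_le _ _ _) (dgx hQ (fun i => w i 0))
    have h2 : 0 ≤ ∑ j, zx (128 * μ) (btx Q R (fun i => w i 1)) (xi Q) (dgx hQ (fun i => w i 0))
        R j ^ 2 := Finset.sum_nonneg fun _ _ => sq_nonneg _
    have h3 : ∑ x ∈ S1 Q R, c x ^ 2 ≤ ∑ l ∈ Finset.range R, ∑ m, ∑ a ∈ Finset.range (Q ^ l),
        cofx (128 * μ) (btx Q R (fun i => w i 1)) (xi Q) (dgx hQ (fun i => w i 0)) l a m ^ 2 := by
      rw [sum_S1 hQ]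
      refine Finset.sum_le_sum fun l _ => ?_
      rw [Finset.sum_comm]
      refine Finset.sum_le_sum fun m _ => Finset.sum_le_sum fun a _ => ?_
      split_ifs
      · rw [hcc]
        exact le_rfl
      · exact sq_nonneg _
    have h5 : 2 * ((128 * μ : ℕ) : ℝ) * ∑ x ∈ S1 Q R, c x ^ 2 ≤ n := by
      have h6 := mul_le_mul_of_nonneg_left h3 (by positivity : (0 : ℝ) ≤ 2 * ((128 * μ : ℕ) : ℝ))
      linarith
    rw [hnN] at h5
    push_cast at h5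
    rw [le_div_iff₀ (by norm_num)]
    have hμ0 : (0 : ℝ) < μ := by linarith
    have h6 : (μ : ℝ) * ((∑ x ∈ S1 Q R, c x ^ 2) * 256) ≤ μ * N := by linarith
    exact le_of_mul_le_mul_left h6 hμ0
  have hcle : ∀ x ∈ S1 Q R, |c x| ≤ cm := by
    intro x hx
    have h1 : c x ^ 2 ≤ N / 256 :=
      (Finset.single_le_sum (f := fun x => c x ^ 2) (fun _ _ => sq_nonneg _) hx).trans hcsum
    have h2 : N ≤ n := by rw [hnN]; exact le_mul_of_one_le_left hN0.le hμr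
    have h3 : c x ^ 2 ≤ cm ^ 2 := by
      have h5 : (n : ℝ) ≤ cm := by rw [hcm]; linarith
      have h6 : (1 : ℝ) ≤ cm := by rw [hcm]; linarith
      calc c x ^ 2 ≤ N / 256 := h1
        _ ≤ cm := by linarith
        _ = cm * 1 := by ring
        _ ≤ cm * cm := mul_le_mul_of_nonneg_left h6 hcm0.le
        _ = cm ^ 2 := by ring
    exact abs_le_of_sq_le_sq h3 hcm0.le
  have hz : ∀ x ∈ S1 Q R, ∀ j, ∃ z : ℤ, (2 : ℝ) ^ G * et x (w j) = z := by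
    intro x hx j
    have h1 : w j ∉ Zx x := by
      intro h2
      apply g4
      rw [hBz]
      exact Set.mem_iUnion.2 ⟨j, Set.mem_iUnion₂.2 ⟨x, hx, h2⟩⟩
    obtain ⟨z, hz⟩ := hc3 x (w j) h1
    refine ⟨2 ^ (G - Gx' x) * z, ?_⟩
    have h2 : (2 : ℝ) ^ G = 2 ^ (G - Gx' x) * 2 ^ Gx' x := by
      rw [← pow_add, Nat.sub_add_cancel (hGle x hx)]
    push_cast
    rw [h2, mul_assoc, hz]
  have hsum : ∑ j, (1 - ∑ x ∈ S1 Q R, c x * e1 Q R x (w j)) ^ 2 ≤ S := by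
    refine le_trans (le_of_eq ?_) hresS
    refine Finset.sum_congr rfl fun j _ => ?_
    unfold res
    rw [hf1]
  have K1 : (n : ℝ) * ((S1 Q R).card * (2 * b1 / 2 ^ G1 + t * cm * ε)) ^ 2 ≤ t ^ 2 * S := by
    rw [← hD]
    have h1 : D * (2 * b1 / 2 ^ G1 + t * cm * ε) ≤ 2 * η := by
      have e1 : D * (2 * b1 / 2 ^ G1 + t * cm * ε) =
          D * (2 * b1) / 2 ^ G1 + D * (t * cm) * ε := by ring
      rw [e1]
      linarith
    have h0 : 0 ≤ D * (2 * b1 / 2 ^ G1 + t * cm * ε) := by positivity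
    have h2 := pow_le_pow_left₀ h0 h1 2
    have h3 : (2 * η) ^ 2 = t ^ 2 * (S / n) := by
      rw [hη]
      have : (2 * (t * Real.sqrt (S / n) / 2)) = t * Real.sqrt (S / n) := by ring
      rw [this, mul_pow, Real.sq_sqrt (by positivity)]
    rw [h3] at h2
    calc (n : ℝ) * (D * (2 * b1 / 2 ^ G1 + t * cm * ε)) ^ 2 ≤ n * (t ^ 2 * (S / n)) :=
          mul_le_mul_of_nonneg_left h2 hn0.le
      _ = t ^ 2 * S := by field_simp
  have K2 : (S1 Q R).card * ((t * cm + b1 / 2 ^ G1) * ε) ≤ t / 8 := by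
    rw [← hD, ← mul_assoc]
    exact hε3
  have K3 : 64 * t ^ 2 + 2 * t ^ 2 * (N / 256) / b1 ^ 2 + 4 * t ^ 2 * S / b2 ^ 2 ≤ 1 / 24 :=
    K3aux R P N U S t Cb Cr C b1 b2 A1 A2 hRr hP1 hN1 hU1 hS0 hCb hCr hC hb1sq hb2sq hA1b hA2b hA1
  have K4 : 2 * ((S1 Q R).card : ℝ) / 4 ^ G1 ≤ 1 / 24 := by
    rw [← hD]; exact hG1b
  exact shift hQ w hiso et c (N / 256) S ε cm t b1 b2 ht hb1 hb2 (fun x _ => hc1 x) het
    (by linarith) hz hcle hcsum hsum K1 K2 K3 K4 hsm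

end

end Pool.Agent.W691.Ran
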