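import Mathlib
import Pool.Agent.W691.Ran.Param
import Pool.Agent.Helper150.Iid.Fin

set_option autoImplicit false

namespace Pool.Agent.W691.Ran

open MeasureTheory Filter Topology Pool.Agent.Helper150.Iid
open scoped ENNReal

noncomputable section

/-- Growth of the parameters. -/
theorem ran_main (hG : S_GRID) (hQu : S_QUANT) (hA : S_AVG) (k : ℝ) (hk : 1 / 2 < k)
    (hk1 : k < 1) (b : ℕ) (hb : 2 ≤ b) :
    ∃ (s : ℕ) (c cL : ℝ), 0 < c ∧ 0 < cL ∧ s ≠ 0 ∧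
    ∀ᶠ t : ℕ in atTop, ∀ (N n : ℕ), N = (2 ^ (s * t)) ^ (2 ^ (b * t) + 1) →
      n = 2 ^ ((b - 1) * t) * N →
      ENNReal.ofReal (c / Real.sqrt (((2 : ℝ) ^ t) ^ b * (N : ℝ) ^ (2 * k) * N)) ≤ ranIid 2 k n ∧
      Real.log n ≤ cL * ((2 : ℝ) ^ t) ^ (b + 1) := by
  have hk0 : 0 ≤ k := by linarith
  obtain ⟨κ, C, hκ0, hκ1, hC, H⟩ := ran_param hG hQu hA k hk hk1
  obtain ⟨k0, hk0'⟩ := exists_nat_ge k
  obtain ⟨s, hs⟩ : ∃ s : ℕ, s = 3 * b * (k0 + 1) + b + 1 := ⟨_, rfl⟩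
  obtain ⟨cL, hcL⟩ : ∃ cL : ℝ, cL = 3 * b + 2 * s + 1 := ⟨_, rfl⟩
  have hcL1 : 1 ≤ cL := by rw [hcL]; nlinarith [(Nat.cast_nonneg b : (0:ℝ) ≤ b), (Nat.cast_nonneg s : (0:ℝ) ≤ s)]
  obtain ⟨C3, hC3⟩ : ∃ C3 : ℝ, C3 = 4 * (C * (2 + (2 + C) * cL ^ 2) + 1) := ⟨_, rfl⟩
  have hC3p : 0 < C3 := by rw [hC3]; positivity
  have hs1 : b + 1 ≤ s := by rw [hs]; omega
  refine ⟨s, 1 / (128 * Real.sqrt C3), cL, by positivity, by linarith, by omega, ?_⟩
  filter_upwards [ev_const 32, ev_const (8 * cL), ev_const (s + 1), ev_const (8 * (2 + C)),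
    ev_exp b 1 one_pos 2 (1 / 6) (by norm_num),
    ev_exp (2 * s) (κ / 1024) (by positivity) 2 (1 / 6) (by norm_num),
    eventually_ge_atTop 1] with t e1 e2 e3 e4 e5 e6 ht1
  intro N n hN hn
  obtain ⟨X, hX⟩ : ∃ X : ℝ, X = (2:ℝ) ^ t := ⟨_, rfl⟩
  rw [← hX] at e1 e2 e3 e4 e5 e6
  have hX1 : 1 ≤ X := by linarith
  have hX0 : 0 < X := by linarith
  have htX : (t : ℝ) ≤ X := by
    rw [hX]
    exact_mod_cast (Nat.lt_two_pow_self (n := t)).le
  obtain ⟨Q, hQ⟩ : ∃ Q : ℕ, Q = 2 ^ (s * t) := ⟨_, rfl⟩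
  obtain ⟨R, hR⟩ : ∃ R : ℕ, R = 2 ^ (b * t) := ⟨_, rfl⟩
  obtain ⟨μ, hμ⟩ : ∃ μ : ℕ, μ = 2 ^ ((b - 1) * t) := ⟨_, rfl⟩
  obtain ⟨Λ, hΛ⟩ : ∃ Λ : ℕ, Λ = (b - 1) * t + s * t * (R + 1) + 2 * b * t := ⟨_, rfl⟩
  have hQX : (Q : ℝ) = X ^ s := by rw [hQ, hX]; push_cast; rw [← pow_mul, mul_comm]
  have hRX : (R : ℝ) = X ^ b := by rw [hR, hX]; push_cast; rw [← pow_mul, mul_comm]
  have hμX : (μ : ℝ) = X ^ (b - 1) := by rw [hμ, hX]; push_cast; rw [← pow_mul, mul_comm]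
  have hNQ : N = Q ^ (R + 1) := by rw [hN, hQ, hR]
  have hnn : n = μ * Q ^ (R + 1) := by rw [hn, hμ, hNQ]
  have hQpos : 0 < Q := by rw [hQ]; positivity
  have hμpos : 0 < μ := by rw [hμ]; positivity
  have hNpos : 0 < N := by rw [hNQ]; positivity
  have hnpos : 0 < n := by rw [hnn]; positivity
  have hnR : (0:ℝ) < n := by exact_mod_cast hnpos
  have hNR : (0:ℝ) < N := by exact_mod_cast hNpos
  have hs0 : s ≠ 0 := by omega
  have hpowX : ∀ m : ℕ, 1 ≤ X ^ m := fun m => one_le_pow₀ hX1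
  -- size of Λ
  have h2Λ : 2 ^ Λ = n * 2 ^ (2 * b * t) := by
    rw [hΛ, hnn, hμ, hQ, pow_add, pow_add, ← pow_mul]
  have h2ΛX : (2:ℝ) ^ Λ = n * X ^ (2 * b) := by
    have : ((2 ^ Λ : ℕ) : ℝ) = ((n * 2 ^ (2 * b * t) : ℕ) : ℝ) := by rw [h2Λ]
    push_cast at this
    rw [this, hX]
    congr 1
    rw [← pow_mul, mul_comm t]
  have hΛle : (Λ : ℝ) + 1 ≤ cL * X ^ (b + 1) := by
    have h1 : (Λ : ℝ) = ((b - 1 : ℕ) : ℝ) * t + s * t * (X ^ b + 1) + 2 * b * t := by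
      rw [hΛ]
      push_cast
      rw [hRX]
    have h2 : ((b - 1 : ℕ) : ℝ) ≤ b := by exact_mod_cast Nat.sub_le _ _
    have h3 : X ≤ X ^ (b + 1) := by
      calc X = X * 1 := by ring
        _ ≤ X * X ^ b := mul_le_mul_of_nonneg_left (hpowX b) hX0.le
        _ = X ^ (b + 1) := by ring
    have h4 : (t:ℝ) ≤ X ^ (b + 1) := htX.trans h3
    have h5 : (t:ℝ) * X ^ b ≤ X ^ (b + 1) := by
      calc (t:ℝ) * X ^ b ≤ X * X ^ b := mul_le_mul_of_nonneg_right htX (by positivity)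
        _ = X ^ (b + 1) := by ring
    have ht0 : (0:ℝ) ≤ t := by positivity
    have hb0 : (0:ℝ) ≤ b := by positivity
    have hs0 : (0:ℝ) ≤ s := by positivity
    rw [h1, hcL]
    have h6 : ((b - 1 : ℕ) : ℝ) * t ≤ b * X ^ (b + 1) :=
      mul_le_mul h2 h4 ht0 hb0
    have h7 : (s:ℝ) * t * (X ^ b + 1) ≤ 2 * s * X ^ (b + 1) := by
      have : (s:ℝ) * t * (X ^ b + 1) = s * (t * X ^ b) + s * t := by ring
      rw [this]
      have h8 := mul_le_mul_of_nonneg_left h5 hs0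
      have h9 := mul_le_mul_of_nonneg_left h4 hs0
      linarith
    have h8 : 2 * (b:ℝ) * t ≤ 2 * b * X ^ (b + 1) :=
      mul_le_mul_of_nonneg_left h4 (by positivity)
    have h9 := hpowX (b + 1)
    nlinarith
  -- the conditions
  have c0 : 32 ≤ Q := by
    have : (32:ℝ) ≤ Q := by
      rw [hQX]
      calc (32:ℝ) ≤ X := e1
        _ = X ^ 1 := by ring
        _ ≤ X ^ s := pow_le_pow_right₀ hX1 (by omega)
    exact_mod_cast this
  have c1 : 8 * n * (Λ + 1) ≤ 2 ^ Λ := by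
    have h1 : (8:ℝ) * n * (Λ + 1) ≤ (2:ℝ) ^ Λ := by
      rw [h2ΛX]
      have h2 : 8 * ((Λ:ℝ) + 1) ≤ X ^ (2 * b) := by
        calc 8 * ((Λ:ℝ) + 1) ≤ 8 * (cL * X ^ (b + 1)) := by linarith
          _ = (8 * cL) * X ^ (b + 1) := by ring
          _ ≤ X * X ^ (b + 1) := mul_le_mul_of_nonneg_right e2 (by positivity)
          _ = X ^ (b + 2) := by ring
          _ ≤ X ^ (2 * b) := pow_le_pow_right₀ hX1 (by omega)
      calc (8:ℝ) * n * (Λ + 1) = n * (8 * ((Λ:ℝ) + 1)) := by ring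
        _ ≤ n * X ^ (2 * b) := mul_le_mul_of_nonneg_left h2 hnR.le
    exact_mod_cast h1
  have c2 : 2 * (R:ℝ) * (Q : ℝ) ^ R * Real.exp (-(μ * Q)) ≤ 1 / 6 := by
    have h1 : (Q : ℝ) ^ R ≤ Real.exp (s * X ^ (b + 1)) := by
      have h2 : (Q : ℝ) ≤ Real.exp (s * X) := by
        have h3 : (Q : ℝ) = (2:ℝ) ^ (s * t) := by rw [hQ]; push_cast; ring
        rw [h3]
        calc (2:ℝ) ^ (s * t) ≤ (Real.exp 1) ^ (s * t) := by
              refine pow_le_pow_left₀ (by norm_num) ?_ _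
              have := Real.add_one_le_exp 1
              linarith
          _ = Real.exp (s * t) := by
              rw [← Real.exp_nat_mul]
              push_cast
              ring_nf
          _ ≤ Real.exp (s * X) := by
              refine Real.exp_le_exp.2 (mul_le_mul_of_nonneg_left htX (by positivity))
      calc (Q : ℝ) ^ R ≤ (Real.exp (s * X)) ^ R := pow_le_pow_left₀ (by positivity) h2 _
        _ = Real.exp (s * X ^ (b + 1)) := by
            rw [← Real.exp_nat_mul, hRX]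
            congr 1
            ring
    have h3 : X ^ (b + 2) ≤ (μ:ℝ) * Q := by
      rw [hμX, hQX, ← pow_add]
      exact pow_le_pow_right₀ hX1 (by omega)
    have h4 : (s:ℝ) * X ^ (b + 1) - μ * Q ≤ -(1 * X) := by
      have h5 : (s:ℝ) * X ^ (b + 1) - X ^ (b + 2) = -((X - s) * X ^ (b + 1)) := by ring
      have h6 : X ≤ X ^ (b + 1) := by
        calc X = X ^ 1 := by ring
          _ ≤ X ^ (b + 1) := pow_le_pow_right₀ hX1 (by omega)
      have h7 : X ≤ (X - s) * X ^ (b + 1) := by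
        calc X ≤ X ^ (b + 1) := h6
          _ = 1 * X ^ (b + 1) := by ring
          _ ≤ (X - s) * X ^ (b + 1) :=
            mul_le_mul_of_nonneg_right (by linarith) (by positivity)
      linarith
    calc 2 * (R:ℝ) * (Q : ℝ) ^ R * Real.exp (-(μ * Q))
        ≤ 2 * X ^ b * Real.exp (s * X ^ (b + 1)) * Real.exp (-(μ * Q)) := by
          rw [hRX]
          refine mul_le_mul_of_nonneg_right ?_ (Real.exp_pos _).le
          exact mul_le_mul_of_nonneg_left h1 (by positivity)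
      _ = 2 * X ^ b * Real.exp (s * X ^ (b + 1) - μ * Q) := by
          rw [mul_assoc, ← Real.exp_add]
          ring_nf
      _ ≤ 2 * X ^ b * Real.exp (-(1 * X)) := by
          refine mul_le_mul_of_nonneg_left (Real.exp_le_exp.2 h4) (by positivity)
      _ ≤ 1 / 6 := e5
  obtain ⟨τ, hτ⟩ : ∃ τ : ℝ, τ = n / X ^ (2 * s) := ⟨_, rfl⟩
  have hτ0 : 0 < τ := by rw [hτ]; positivity
  have c3 : (1 - κ / (1024 * μ)) ^ R * (2 * n) / τ ≤ 1 / 6 := by
    have hμ1 : (1:ℝ) ≤ μ := by exact_mod_cast hμpos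
    have h1 : (1 - κ / (1024 * μ)) ^ R ≤ Real.exp (-(κ / 1024 * X)) := by
      have h2 : (1 - κ / (1024 * μ)) ≤ Real.exp (-(κ / (1024 * μ))) := by
        have := Real.add_one_le_exp (-(κ / (1024 * μ)))
        linarith
      have h3 : 0 ≤ 1 - κ / (1024 * μ) := by
        have : κ / (1024 * μ) ≤ 1 := by
          rw [div_le_one (by positivity)]
          nlinarith
        linarith
      calc (1 - κ / (1024 * μ)) ^ R ≤ (Real.exp (-(κ / (1024 * μ)))) ^ R :=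
            pow_le_pow_left₀ h3 h2 _
        _ = Real.exp (-(κ / 1024 * X)) := by
            rw [← Real.exp_nat_mul, hRX, hμX]
            congr 1
            have h4 : X ^ b = X * X ^ (b - 1) := by
              rw [← pow_succ', Nat.sub_add_cancel (by omega)]
            rw [h4]
            field_simp
    have h5 : (1 - κ / (1024 * μ)) ^ R * (2 * n) / τ =
        2 * X ^ (2 * s) * (1 - κ / (1024 * μ)) ^ R := by
      rw [hτ]
      field_simp
    rw [h5]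
    calc 2 * X ^ (2 * s) * (1 - κ / (1024 * μ)) ^ R ≤
        2 * X ^ (2 * s) * Real.exp (-(κ / 1024 * X)) :=
          mul_le_mul_of_nonneg_left h1 (by positivity)
      _ ≤ 1 / 6 := e6
  have c4 : (3 * n / 2 ^ (Λ + 1) : ℝ) ≤ 1 / 6 := by
    rw [pow_succ, h2ΛX]
    have h1 : (9:ℝ) ≤ X ^ (2 * b) := by
      calc (9:ℝ) ≤ X := by linarith
        _ = X ^ 1 := by ring
        _ ≤ X ^ (2 * b) := pow_le_pow_right₀ hX1 (by omega)
    rw [div_le_iff₀ (by positivity)]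
    nlinarith
  obtain ⟨S, hS⟩ : ∃ S : ℝ, S = (2 + C) * (n * (X ^ (2 * b) / X ^ (2 * s))) := ⟨_, rfl⟩
  have c5 : 2 * τ + C * (R / Q) ^ 2 * n ≤ S := by
    rw [hS, hτ, hRX, hQX]
    have h1 : (n:ℝ) / X ^ (2 * s) ≤ n * (X ^ (2 * b) / X ^ (2 * s)) := by
      rw [← mul_div_assoc]
      refine div_le_div_of_nonneg_right ?_ (by positivity)
      calc (n:ℝ) = n * 1 := by ring
        _ ≤ n * X ^ (2 * b) := mul_le_mul_of_nonneg_left (hpowX _) hnR.le
    have h2 : C * (X ^ b / X ^ s) ^ 2 * n = C * (n * (X ^ (2 * b) / X ^ (2 * s))) := by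
      rw [div_pow, ← pow_mul, ← pow_mul, mul_comm b 2, mul_comm s 2]
      ring
    rw [h2]
    linarith
  have hS0 : 0 ≤ S := by rw [hS]; positivity
  have hXs : X ^ (2 * b) / X ^ (2 * s) ≤ 1 := by
    rw [div_le_one (by positivity)]
    exact pow_le_pow_right₀ hX1 (by omega)
  have c6 : 1 / 2 ^ Λ * Real.sqrt (n * S) ≤ 1 / 8 := by
    have h1 : Real.sqrt (n * S) ≤ (2 + C) * n := by
      rw [Real.sqrt_le_left (by positivity)]
      have h2 : S ≤ (2 + C) * n := by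
        rw [hS]
        refine mul_le_mul_of_nonneg_left ?_ (by positivity)
        calc (n:ℝ) * (X ^ (2 * b) / X ^ (2 * s)) ≤ n * 1 :=
              mul_le_mul_of_nonneg_left hXs hnR.le
          _ = n := by ring
      calc (n:ℝ) * S ≤ n * ((2 + C) * n) := mul_le_mul_of_nonneg_left h2 hnR.le
        _ = 1 * ((2 + C) * n ^ 2) := by ring
        _ ≤ (2 + C) * ((2 + C) * n ^ 2) :=
            mul_le_mul_of_nonneg_right (by linarith) (by positivity)
        _ = ((2 + C) * n) ^ 2 := by ring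
    rw [h2ΛX]
    calc 1 / (n * X ^ (2 * b)) * Real.sqrt (n * S) ≤ 1 / (n * X ^ (2 * b)) * ((2 + C) * n) :=
          mul_le_mul_of_nonneg_left h1 (by positivity)
      _ = (2 + C) / X ^ (2 * b) := by
          field_simp
      _ ≤ 1 / 8 := by
          rw [div_le_iff₀ (by positivity)]
          have h3 : X ≤ X ^ (2 * b) := by
            calc X = X ^ 1 := by ring
              _ ≤ X ^ (2 * b) := pow_le_pow_right₀ hX1 (by omega)
          linarith
  -- the norm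
  have hNQ' : (Q : ℝ) ^ (R + 1) = N := by rw [hNQ]; push_cast; ring
  obtain ⟨P, hP⟩ : ∃ P : ℝ, P = (N : ℝ) ^ (2 * k) := ⟨_, rfl⟩
  have hN1' : (1 : ℝ) ≤ N := by exact_mod_cast hNpos
  have hP1 : (1:ℝ) ≤ P := by rw [hP]; exact Real.one_le_rpow hN1' (by linarith)
  obtain ⟨W, hW⟩ : ∃ W : ℝ, W = X ^ b * P * N := ⟨_, rfl⟩
  have hXb1 : 1 ≤ X ^ b := hpowX b
  have hW1 : 1 ≤ W := by
    rw [hW]
    exact one_le_mul_of_one_le_of_one_le (one_le_mul_of_one_le_of_one_le hXb1 hP1) hN1'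
  have hnX : (n : ℝ) = X ^ (b - 1) * N := by
    rw [hn]
    push_cast
    rw [hX, ← pow_mul, mul_comm t]
  obtain ⟨m, hm⟩ : ∃ m : ℕ, m = (b - 1) + 2 * b := ⟨_, rfl⟩
  obtain ⟨Y, hY⟩ : ∃ Y : ℝ, Y = X ^ m := ⟨_, rfl⟩
  have hY1 : 1 ≤ Y := by rw [hY]; exact hpowX m
  have hY0 : 0 ≤ Y := by linarith
  have key : ((Λ : ℝ) + 1) ^ 2 * ((2 : ℝ) ^ Λ) ^ (2 * k) * S ≤ (2 + C) * cL ^ 2 * W := by
    have h2 : ((2 : ℝ) ^ Λ) ^ (2 * k) = P * Y ^ (2 * k) := by
      rw [h2ΛX, hnX, hP, ← Real.mul_rpow hNR.le hY0]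
      congr 1
      rw [hY, hm, pow_add]
      ring
    have hSX : S = (2 + C) * (N * Y / X ^ (2 * s)) := by
      rw [hS, hnX, hY, hm, pow_add]
      ring
    have h4 : Y ^ (2 * k) ≤ Y ^ (2 * k0) := by
      rw [← Real.rpow_natCast]
      refine Real.rpow_le_rpow_of_exponent_le hY1 ?_
      push_cast
      linarith
    have h3 : Y ^ (2 * k) * Y * X ^ (2 * (b + 1)) ≤ X ^ (2 * s) := by
      calc Y ^ (2 * k) * Y * X ^ (2 * (b + 1)) ≤ Y ^ (2 * k0) * Y * X ^ (2 * (b + 1)) := by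
            refine mul_le_mul_of_nonneg_right ?_ (by positivity)
            exact mul_le_mul_of_nonneg_right h4 hY0
        _ = X ^ (m * (2 * k0) + m + 2 * (b + 1)) := by
            rw [hY, ← pow_mul, ← pow_add, ← pow_add]
        _ ≤ X ^ (2 * s) := by
            refine pow_le_pow_right₀ hX1 ?_
            rw [hs, hm]
            have h5 : ((b - 1) + 2 * b) * (2 * k0) ≤ 3 * b * (2 * k0) :=
              Nat.mul_le_mul_right _ (by omega)
            have h6 : 3 * b * (2 * k0) = 2 * (3 * b * k0) := by ring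
            have h7 : 3 * b * (k0 + 1) = 3 * b * k0 + 3 * b := by ring
            omega
    have hYk : 0 ≤ Y ^ (2 * k) := Real.rpow_nonneg hY0 _
    have hΛ2 : ((Λ : ℝ) + 1) ^ 2 ≤ cL ^ 2 * X ^ (2 * (b + 1)) := by
      have h7 := pow_le_pow_left₀ (by positivity) hΛle 2
      rw [mul_pow, ← pow_mul, mul_comm (b + 1) 2] at h7
      exact h7
    rw [h2, hSX]
    have hP0 : 0 ≤ P := by linarith
    calc ((Λ : ℝ) + 1) ^ 2 * (P * Y ^ (2 * k)) * ((2 + C) * (N * Y / X ^ (2 * s)))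
        ≤ cL ^ 2 * X ^ (2 * (b + 1)) * (P * Y ^ (2 * k)) * ((2 + C) * (N * Y / X ^ (2 * s))) := by
          refine mul_le_mul_of_nonneg_right ?_ (by positivity)
          exact mul_le_mul_of_nonneg_right hΛ2 (by positivity)
      _ = (2 + C) * cL ^ 2 * (P * N) * ((Y ^ (2 * k) * Y * X ^ (2 * (b + 1))) / X ^ (2 * s)) := by
          ring
      _ ≤ (2 + C) * cL ^ 2 * (P * N) * 1 := by
          refine mul_le_mul_of_nonneg_left ?_ (by positivity)
          rw [div_le_one (by positivity)]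
          exact h3
      _ ≤ (2 + C) * cL ^ 2 * W := by
          rw [mul_one]
          refine mul_le_mul_of_nonneg_left ?_ (by positivity)
          rw [hW]
          have h8 : 0 ≤ P * N := by positivity
          calc P * N = 1 * (P * N) := by ring
            _ ≤ X ^ b * (P * N) := mul_le_mul_of_nonneg_right hXb1 h8
            _ = X ^ b * P * N := by ring
  obtain ⟨A, hA1, hA2⟩ := ex_four (C * (2 + (2 + C) * cL ^ 2) * W) (by positivity)
  have c7 : C * (1 + R * ((Q : ℝ) ^ (R + 1)) ^ (2 * k) * (Q : ℝ) ^ (R + 1) +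
      ((Λ : ℝ) + 1) ^ 2 * ((2 : ℝ) ^ Λ) ^ (2 * k) * S) * (1 / 2 ^ A) ^ 2 ≤ 1 := by
    have h4 : ((1 : ℝ) / 2 ^ A) ^ 2 = 1 / 4 ^ A := by
      rw [div_pow, one_pow, ← pow_mul, mul_comm, pow_mul]
      norm_num
    rw [h4, mul_one_div, div_le_one (by positivity)]
    refine le_trans ?_ hA1
    have e0 : C * (2 + (2 + C) * cL ^ 2) * W = C * ((2 + (2 + C) * cL ^ 2) * W) := by ring
    rw [hNQ', hRX, ← hP, ← hW, e0]
    refine mul_le_mul_of_nonneg_left ?_ hC.le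
    have : (2 + (2 + C) * cL ^ 2) * W = W + W + (2 + C) * cL ^ 2 * W := by ring
    rw [this]
    linarith
  have hR1 : 1 ≤ R := by rw [hR]; exact Nat.one_le_two_pow
  have hmain := H n Q hQpos R μ Λ τ c0 hμpos hτ0 hnn c1 c2 c3 c4 hR1 S c5 c6 A c7
  refine ⟨?_, ?_⟩
  · refine le_trans (ENNReal.ofReal_le_ofReal ?_) hmain
    rw [← hX, ← hP, ← hW]
    have h5 : (4 : ℝ) ^ A ≤ C3 * W := by
      refine hA2.trans ?_
      rw [hC3]
      have : 4 * (C * (2 + (2 + C) * cL ^ 2) + 1) * W =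
        4 * (C * (2 + (2 + C) * cL ^ 2) * W) + 4 * W := by ring
      rw [this]
      linarith
    have h6 : (2 : ℝ) ^ A ≤ Real.sqrt C3 * Real.sqrt W := by
      rw [← Real.sqrt_mul hC3p.le]
      refine Real.le_sqrt_of_sq_le ?_
      rw [← pow_mul, mul_comm, pow_mul]
      norm_num
      exact h5
    have h7 : 0 < Real.sqrt C3 := Real.sqrt_pos.2 hC3p
    have h8 : 0 < Real.sqrt W := Real.sqrt_pos.2 (by linarith)
    have e1 : 1 / (128 * Real.sqrt C3) / Real.sqrt W = 1 / (Real.sqrt C3 * Real.sqrt W) / 128 := by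
      field_simp
    rw [e1]
    refine div_le_div_of_nonneg_right ?_ (by norm_num)
    exact one_div_le_one_div_of_le (by positivity) h6
  · rw [← hX]
    have h1 : (n : ℝ) ≤ (2:ℝ) ^ Λ := by
      rw [h2ΛX]
      calc (n:ℝ) = n * 1 := by ring
        _ ≤ n * X ^ (2 * b) := mul_le_mul_of_nonneg_left (hpowX _) hnR.le
    have h2 : Real.log n ≤ Λ * Real.log 2 := by
      rw [← Real.log_pow]
      exact Real.log_le_log hnR h1
    have h3 : Real.log 2 ≤ 1 := by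
      have := Real.log_two_lt_d9
      linarith
    have h4 : (Λ:ℝ) * Real.log 2 ≤ Λ * 1 :=
      mul_le_mul_of_nonneg_left h3 (by positivity)
    linarith

end

end Pool.Agent.W691.Ran
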