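import Mathlib
import Pool.Agent.W691.Ran.Main
import Pool.Agent.W12.RN.Ub
import Pool.Agent.W12.RN.Grid
import Pool.Agent.W12.RN.Pair
import Pool.Agent.W991.RN.Avg
import Pool.Agent.W991.RN.UA
import Pool.Agent.W646.RN.Geo
import Pool.Agent.W646.RN.Count
import Pool.Agent.W347.RN.Tent
import Pool.Agent.W347.RN.Quant

set_option autoImplicit false

namespace Pool.Agent.W691.Ran

open MeasureTheory Filter Topology Pool.Agent.Helper150.Iid
open scoped ENNReal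

noncomputable section

/-- The Monte Carlo error of the scrambled nets. -/
theorem ranOpt_le (k : ℝ) (hk : 1 / 2 < k) (hk1 : k < 1) : ∃ C : ℝ, 0 < C ∧ ∀ m : ℕ,
    ranOpt 2 k (2 ^ m) ≤ ENNReal.ofReal (Real.sqrt (C * ((2 : ℝ) ^ m) ^ (-(1 + 2 * k)))) := by
  obtain ⟨C, hC, H⟩ := Pool.Agent.W12.RN.UB.ub Pool.Agent.W12.RN.pair Pool.Agent.W646.RN.count
    Pool.Agent.W646.RN.geo k hk hk1
  refine ⟨C, hC, fun m => ?_⟩
  obtain ⟨Ω', i1, i2, z, hz⟩ := H m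
  exact Pool.Agent.W991.RN.ua k hk (2 ^ m) (by positivity) Ω' z
    (C * ((2 : ℝ) ^ m) ^ (-(1 + 2 * k))) (by positivity) hz

/-- The ratio along the special sequence of sample sizes. -/
theorem ran_ratio (k : ℝ) (hk : 1 / 2 < k) (hk1 : k < 1) (θ : ℝ) (hθ : θ < k) (n₀ : ℕ) :
    ∃ n : ℕ, n₀ ≤ n ∧ ENNReal.ofReal ((Real.log n) ^ θ) * ranOpt 2 k n < ranIid 2 k n := by
  obtain ⟨θ', hθ'⟩ : ∃ θ' : ℝ, θ' = max θ 0 := ⟨_, rfl⟩
  have h0 : 0 ≤ θ' := by rw [hθ']; exact le_max_right _ _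
  have h1 : θ ≤ θ' := by rw [hθ']; exact le_max_left _ _
  have h2 : θ' < k := by rw [hθ']; exact max_lt hθ (by linarith)
  obtain ⟨b0, hb0⟩ := exists_nat_ge ((2 + 2 * k + 2 * θ') / (2 * k - 2 * θ'))
  obtain ⟨b, hb⟩ : ∃ b : ℕ, b = b0 + 2 := ⟨_, rfl⟩
  have hb2 : 2 ≤ b := by omega
  have hδ : ((b + 1 : ℕ) : ℝ) * (2 * θ') + b + 1 ≤ (1 + 2 * k) * ((b - 1 : ℕ) : ℝ) := by
    have h3 : 2 + 2 * k + 2 * θ' ≤ b0 * (2 * k - 2 * θ') := by
      rwa [div_le_iff₀ (by linarith)] at hb0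
    have h4 : ((b - 1 : ℕ) : ℝ) = b0 + 1 := by
      rw [hb]
      have : b0 + 2 - 1 = b0 + 1 := by omega
      rw [this]
      push_cast
      ring
    have h5 : ((b + 1 : ℕ) : ℝ) = b0 + 3 := by rw [hb]; push_cast; ring
    have h6 : (b : ℝ) = b0 + 2 := by rw [hb]; push_cast; ring
    rw [h4, h5, h6]
    nlinarith
  obtain ⟨s, c, cL, hc, hcL, hs, H⟩ := ran_main Pool.Agent.W12.RN.grid
    Pool.Agent.W347.RN.Quant.quant (Pool.Agent.W991.RN.avg Pool.Agent.W347.RN.Tent.tent) k hk hk1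
    b hb2
  obtain ⟨C4, hC4, HC4⟩ := ranOpt_le k hk hk1
  obtain ⟨t, Ht, ht1, ht2, ht3⟩ := (H.and ((ev_const (C4 * cL ^ (2 * θ') / c ^ 2 + 1)).and
    ((eventually_ge_atTop 1).and (eventually_ge_atTop n₀)))).exists
  obtain ⟨N, hN⟩ : ∃ N : ℕ, N = (2 ^ (s * t)) ^ (2 ^ (b * t) + 1) := ⟨_, rfl⟩
  obtain ⟨n, hn⟩ : ∃ n : ℕ, n = 2 ^ ((b - 1) * t) * N := ⟨_, rfl⟩
  obtain ⟨Hlow, Hlog⟩ := Ht N n hN hn
  obtain ⟨X, hX⟩ : ∃ X : ℝ, X = (2:ℝ) ^ t := ⟨_, rfl⟩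
  rw [← hX] at Hlog ht1 Hlow
  have hX1 : 1 ≤ X := by rw [hX]; exact one_le_pow₀ (by norm_num)
  have hX0 : 0 < X := by linarith
  have hNpos : 0 < N := by rw [hN]; positivity
  have hNR : (0:ℝ) < N := by exact_mod_cast hNpos
  have hN1 : 1 ≤ N := hNpos
  have ht4 : t < 2 ^ ((b - 1) * t) := by
    calc t < 2 ^ t := Nat.lt_two_pow_self
      _ ≤ 2 ^ ((b - 1) * t) := Nat.pow_le_pow_right (by norm_num) (by
          calc t = 1 * t := by ring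
            _ ≤ (b - 1) * t := Nat.mul_le_mul_right _ (by omega))
  have hNt : 4 ≤ N := by
    rw [hN, ← pow_mul]
    calc 4 = 2 ^ 2 := by norm_num
      _ ≤ 2 ^ (s * t * (2 ^ (b * t) + 1)) := by
          refine Nat.pow_le_pow_right (by norm_num) ?_
          have h5 : 1 ≤ s * t := Nat.mul_pos (Nat.pos_of_ne_zero hs) ht2
          have h6 : 1 ≤ 2 ^ (b * t) := Nat.one_le_two_pow
          calc 2 = 1 * 2 := by norm_num
            _ ≤ s * t * (2 ^ (b * t) + 1) := Nat.mul_le_mul h5 (by omega)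
  have hnN : N ≤ n := by
    rw [hn]
    calc N = 1 * N := by ring
      _ ≤ 2 ^ ((b - 1) * t) * N := Nat.mul_le_mul_right _ Nat.one_le_two_pow
  have hn0 : n₀ ≤ n := by
    calc n₀ ≤ t := ht3
      _ ≤ 2 ^ ((b - 1) * t) := ht4.le
      _ = 2 ^ ((b - 1) * t) * 1 := by ring
      _ ≤ 2 ^ ((b - 1) * t) * N := Nat.mul_le_mul_left _ hN1
      _ = n := hn.symm
  refine ⟨n, hn0, ?_⟩
  have hn4 : (4:ℝ) ≤ n := by exact_mod_cast hNt.trans hnN
  have hnR : (0:ℝ) < n := by linarith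
  have hlog1 : 1 ≤ Real.log n := by
    rw [Real.le_log_iff_exp_le hnR]
    have := Real.exp_one_lt_d9
    linarith
  have hlog0 : 0 < Real.log n := by linarith
  -- `n` is a power of two
  obtain ⟨m, hm⟩ : ∃ m : ℕ, m = (b - 1) * t + s * t * (2 ^ (b * t) + 1) := ⟨_, rfl⟩
  have hnm : n = 2 ^ m := by
    rw [hn, hN, hm, ← pow_mul, pow_add]
  have hup := HC4 m
  rw [← hnm] at hup
  have hnm' : (2 : ℝ) ^ m = n := by rw [hnm]; push_cast; ring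
  rw [hnm'] at hup
  have hnX : (n:ℝ) = X ^ (b - 1) * N := by
    rw [hn]
    push_cast
    rw [hX, ← pow_mul, mul_comm t]
  -- the powers
  have e1 : ((Real.log n) ^ θ) ^ 2 ≤ cL ^ (2 * θ') * X ^ (((b + 1 : ℕ) : ℝ) * (2 * θ')) := by
    calc ((Real.log n) ^ θ) ^ 2 ≤ ((Real.log n) ^ θ') ^ 2 :=
          pow_le_pow_left₀ (Real.rpow_nonneg hlog0.le _)
            (Real.rpow_le_rpow_of_exponent_le hlog1 h1) 2
      _ = (Real.log n) ^ (2 * θ') := by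
          rw [← Real.rpow_natCast, ← Real.rpow_mul hlog0.le]
          congr 1
          push_cast
          ring
      _ ≤ (cL * X ^ (b + 1)) ^ (2 * θ') := Real.rpow_le_rpow hlog0.le Hlog (by linarith)
      _ = cL ^ (2 * θ') * (X ^ (b + 1)) ^ (2 * θ') := by
          rw [Real.mul_rpow hcL.le (by positivity)]
      _ = _ := by
          rw [Real.rpow_mul hX0.le, Real.rpow_natCast]
  have e2 : C4 * ((Real.log n) ^ θ) ^ 2 * X ^ b < c ^ 2 * X ^ ((1 + 2 * k) * ((b - 1 : ℕ) : ℝ)) := by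
    have h6 : C4 * cL ^ (2 * θ') < c ^ 2 * X := by
      have h7 : C4 * cL ^ (2 * θ') / c ^ 2 < X := by linarith
      rw [div_lt_iff₀ (by positivity)] at h7
      linarith
    have h7 : X ^ (((b + 1 : ℕ) : ℝ) * (2 * θ')) * X ^ b * X ≤
        X ^ ((1 + 2 * k) * ((b - 1 : ℕ) : ℝ)) := by
      have h8 : X ^ (((b + 1 : ℕ) : ℝ) * (2 * θ')) * X ^ b * X =
          X ^ (((b + 1 : ℕ) : ℝ) * (2 * θ') + b + 1) := by
        rw [Real.rpow_add hX0, Real.rpow_add hX0, Real.rpow_one, Real.rpow_natCast]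
      rw [h8]
      exact Real.rpow_le_rpow_of_exponent_le hX1 hδ
    have h8 : 0 < X ^ (((b + 1 : ℕ) : ℝ) * (2 * θ')) * X ^ b := by
      have := Real.rpow_pos_of_pos hX0 (((b + 1 : ℕ) : ℝ) * (2 * θ'))
      positivity
    calc C4 * ((Real.log n) ^ θ) ^ 2 * X ^ b
        ≤ C4 * (cL ^ (2 * θ') * X ^ (((b + 1 : ℕ) : ℝ) * (2 * θ'))) * X ^ b := by
          refine mul_le_mul_of_nonneg_right ?_ (by positivity)
          exact mul_le_mul_of_nonneg_left e1 hC4.le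
      _ = (C4 * cL ^ (2 * θ')) * (X ^ (((b + 1 : ℕ) : ℝ) * (2 * θ')) * X ^ b) := by ring
      _ < (c ^ 2 * X) * (X ^ (((b + 1 : ℕ) : ℝ) * (2 * θ')) * X ^ b) :=
          mul_lt_mul_of_pos_right h6 h8
      _ = c ^ 2 * (X ^ (((b + 1 : ℕ) : ℝ) * (2 * θ')) * X ^ b * X) := by ring
      _ ≤ c ^ 2 * X ^ ((1 + 2 * k) * ((b - 1 : ℕ) : ℝ)) :=
          mul_le_mul_of_nonneg_left h7 (by positivity)
  obtain ⟨W, hW⟩ : ∃ W : ℝ, W = X ^ b * (N : ℝ) ^ (2 * k) * N := ⟨_, rfl⟩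
  have hW0 : 0 < W := by
    rw [hW]
    have := Real.rpow_pos_of_pos hNR (2 * k)
    positivity
  rw [← hW] at Hlow
  have e3 : (Real.log n) ^ θ * Real.sqrt (C4 * (n : ℝ) ^ (-(1 + 2 * k))) < c / Real.sqrt W := by
    have hl : 0 ≤ (Real.log n) ^ θ := Real.rpow_nonneg hlog0.le _
    have hr : 0 < c / Real.sqrt W := by
      have := Real.sqrt_pos.2 hW0
      positivity
    refine (sq_lt_sq₀ (by positivity) hr.le).1 ?_
    have hnk : 0 < (n : ℝ) ^ (-(1 + 2 * k)) := Real.rpow_pos_of_pos hnR _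
    rw [mul_pow, Real.sq_sqrt (by positivity), div_pow, Real.sq_sqrt hW0.le,
      lt_div_iff₀ hW0]
    have hnp : (n : ℝ) ^ (-(1 + 2 * k)) =
        (X ^ ((1 + 2 * k) * ((b - 1 : ℕ) : ℝ)))⁻¹ * ((N : ℝ) ^ (2 * k) * N)⁻¹ := by
      rw [Real.rpow_neg hnR.le, hnX, Real.mul_rpow (by positivity) hNR.le, mul_inv]
      congr 2
      · rw [← Real.rpow_natCast X (b - 1), ← Real.rpow_mul hX0.le]
        congr 1
        ring
      · rw [add_comm, Real.rpow_add hNR, Real.rpow_one]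
    have hA : 0 < X ^ ((1 + 2 * k) * ((b - 1 : ℕ) : ℝ)) := Real.rpow_pos_of_pos hX0 _
    have hB : 0 < (N : ℝ) ^ (2 * k) * N := by
      have := Real.rpow_pos_of_pos hNR (2 * k)
      positivity
    rw [hnp, hW]
    have e4 : ((Real.log n) ^ θ) ^ 2 * (C4 * ((X ^ ((1 + 2 * k) * ((b - 1 : ℕ) : ℝ)))⁻¹ *
        ((N : ℝ) ^ (2 * k) * N)⁻¹)) * (X ^ b * (N : ℝ) ^ (2 * k) * N) =
        (C4 * ((Real.log n) ^ θ) ^ 2 * X ^ b) * (X ^ ((1 + 2 * k) * ((b - 1 : ℕ) : ℝ)))⁻¹ := by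
      field_simp
    rw [e4, ← div_eq_mul_inv, div_lt_iff₀ hA]
    exact e2
  calc ENNReal.ofReal ((Real.log n) ^ θ) * ranOpt 2 k n
      ≤ ENNReal.ofReal ((Real.log n) ^ θ) *
        ENNReal.ofReal (Real.sqrt (C4 * (n : ℝ) ^ (-(1 + 2 * k)))) := by
        gcongr
    _ = ENNReal.ofReal ((Real.log n) ^ θ * Real.sqrt (C4 * (n : ℝ) ^ (-(1 + 2 * k)))) := by
        rw [ENNReal.ofReal_mul (Real.rpow_nonneg hlog0.le _)]
    _ < ENNReal.ofReal (c / Real.sqrt W) := by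
        refine (ENNReal.ofReal_lt_ofReal_iff ?_).2 e3
        have := Real.sqrt_pos.2 hW0
        positivity
    _ ≤ ranIid 2 k n := Hlow

end

end Pool.Agent.W691.Ran
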